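import Pool.Agent.H565R2.EV.Defs

set_option autoImplicit false

open Polynomial

namespace Pool.Agent.H565R2.EV

private theorem fac_ALG1 {n : ℕ} (σ : Fin n → ℂ) (k : Fin n) :
    QQ σ = (X + C (σ k ^ 2)) * QE σ k := by
  unfold QQ QE
  exact (Finset.mul_prod_erase Finset.univ _ (Finset.mem_univ k)).symm

private theorem der_ALG1 {n : ℕ} (σ : Fin n → ℂ) : derivative (QQ σ) = ∑ k, QE σ k := by
  unfold QQ QE
  rw [derivative_prod_finset]
  refine Finset.sum_congr rfl fun k _ => ?_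
  rw [derivative_add, derivative_X, derivative_C, add_zero, mul_one]

private theorem step_ALG1 {n : ℕ} (σ : Fin n → ℂ) (S : ℂ) (hne : ∀ k, S + σ k ^ 2 ≠ 0) :
    (X - C S) * (C ((QQ σ).eval S) * ∑ k, C (σ k ^ 2 / (S + σ k ^ 2)) * QE σ k) =
      C ((QQ σ).eval S) * (X * derivative (QQ σ)) -
        C (S * (derivative (QQ σ)).eval S) * QQ σ := by
  rw [der_ALG1, eval_finsetSum, Finset.mul_sum, Finset.mul_sum, Finset.mul_sum, Finset.mul_sum,
    Finset.mul_sum, map_sum, Finset.sum_mul, ← Finset.sum_sub_distrib]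
  refine Finset.sum_congr rfl fun k _ => ?_
  obtain ⟨e, he⟩ : ∃ e, e = (QE σ k).eval S := ⟨_, rfl⟩
  have h1 : (QQ σ).eval S = (S + σ k ^ 2) * e := by
    rw [fac_ALG1 σ k, eval_mul, he]
    simp
  have h2 : C ((QQ σ).eval S) * C (σ k ^ 2 / (S + σ k ^ 2)) = C (e * σ k ^ 2) := by
    rw [← C_mul, h1]
    congr 1
    have := hne k
    field_simp
  have h3 : C ((QQ σ).eval S) = (C S + C (σ k ^ 2)) * C e := by
    rw [h1, C_mul, C_add]
  rw [← he]
  calc (X - C S) * (C ((QQ σ).eval S) * (C (σ k ^ 2 / (S + σ k ^ 2)) * QE σ k))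
      = (X - C S) * ((C ((QQ σ).eval S) * C (σ k ^ 2 / (S + σ k ^ 2))) * QE σ k) := by ring
    _ = (X - C S) * (C e * C (σ k ^ 2) * QE σ k) := by rw [h2, C_mul]
    _ = (C S + C (σ k ^ 2)) * C e * (X * QE σ k) -
        C S * C e * ((X + C (σ k ^ 2)) * QE σ k) := by ring
    _ = _ := by rw [← h3, ← fac_ALG1, C_mul]

private theorem geo_ALG1 (S : ℂ) (i j : ℕ) (h : j < i) :
    (X - C S) * ∑ l ∈ Finset.Ico j i, C (S ^ (i + j - 1 - l)) * X ^ l =
      C (S ^ j) * X ^ i - C (S ^ i) * (X : ℂ[X]) ^ j := by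
  rw [Finset.sum_Ico_eq_sum_range, Finset.mul_sum]
  obtain ⟨d, rfl⟩ : ∃ d, i = j + d := ⟨i - j, by omega⟩
  have e0 : j + d - j = d := by omega
  rw [e0]
  have h1 : ∀ t ∈ Finset.range d, (X - C S) * (C (S ^ (j + d + j - 1 - (j + t))) * X ^ (j + t)) =
      (fun t => C (S ^ (j + d - t)) * (X : ℂ[X]) ^ (j + t)) (t + 1) -
      (fun t => C (S ^ (j + d - t)) * (X : ℂ[X]) ^ (j + t)) t := by
    intro t ht
    have ht' := Finset.mem_range.1 ht
    simp only
    have e1 : j + d + j - 1 - (j + t) = j + d - (t + 1) := by omega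
    have e2 : j + d - t = (j + d - (t + 1)) + 1 := by omega
    rw [e1, e2, pow_succ S, C_mul, ← add_assoc, pow_succ (X : ℂ[X])]
    ring
  rw [Finset.sum_congr rfl h1]
  refine (Finset.sum_range_sub (fun t => C (S ^ (j + d - t)) * (X : ℂ[X]) ^ (j + t)) d).trans ?_
  have e3 : j + d - d = j := by omega
  rw [e3, Nat.sub_zero, add_zero]

private theorem sym_ALG1 {M : Type} [AddCommMonoid M] (P : Finset ℕ) (f : ℕ → ℕ → M)
    (h : ∀ i, f i i = 0) : ∑ i ∈ P, ∑ j ∈ P, f i j =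
      ∑ i ∈ P, ∑ j ∈ P, (if j < i then f i j + f j i else 0) := by
  have h1 : ∀ i j, f i j = (if j < i then f i j else 0) + (if i < j then f i j else 0) := by
    intro i j
    rcases lt_trichotomy i j with h2 | h2 | h2
    · rw [if_neg (by omega), if_pos h2, zero_add]
    · subst h2
      rw [if_neg (lt_irrefl _), h, add_zero]
    · rw [if_pos h2, if_neg (by omega), add_zero]
  have h2 : ∑ i ∈ P, ∑ j ∈ P, f i j = ∑ i ∈ P, ∑ j ∈ P, (if j < i then f i j else 0) +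
      ∑ i ∈ P, ∑ j ∈ P, (if i < j then f i j else 0) := by
    rw [← Finset.sum_add_distrib]
    refine Finset.sum_congr rfl fun i _ => ?_
    rw [← Finset.sum_add_distrib]
    exact Finset.sum_congr rfl fun j _ => h1 i j
  have h3 : ∑ i ∈ P, ∑ j ∈ P, (if i < j then f i j else 0) =
      ∑ i ∈ P, ∑ j ∈ P, (if j < i then f j i else 0) := Finset.sum_comm
  rw [h2, h3, ← Finset.sum_add_distrib]
  refine Finset.sum_congr rfl fun i _ => ?_
  rw [← Finset.sum_add_distrib]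
  refine Finset.sum_congr rfl fun j _ => ?_
  split_ifs
  · rfl
  · rw [add_zero]

/-- ALG1 -/
theorem alg1 {n : ℕ} (σ : Fin n → ℂ) (q : ℕ → ℝ) (hq : ∀ i, (QQ σ).coeff i = (q i : ℂ))
    (s : ℝ) (hne : ∀ k, (s : ℂ) + σ k ^ 2 ≠ 0) (m : ℕ) :
    ((∑ i ∈ Finset.range (n + 1), q i * s ^ i : ℝ) : ℂ) *
        ∑ k, (σ k ^ 2 / ((s : ℂ) + σ k ^ 2)) * (QE σ k).coeff m =
      ((∑ i ∈ Finset.range (n + 1), ∑ j ∈ Finset.range (n + 1),
        if j ≤ m ∧ m < i then ((i : ℝ) - j) * q i * q j * s ^ (i + j - 1 - m) else 0 : ℝ) : ℂ) := by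
  obtain ⟨S, hS⟩ : ∃ S : ℂ, S = (s : ℂ) := ⟨_, rfl⟩
  obtain ⟨P, hP⟩ : ∃ P, P = Finset.range (n + 1) := ⟨_, rfl⟩
  rw [← hS] at hne ⊢
  have hdeg : (QQ σ).natDegree < n + 1 := by
    have h1 : (QQ σ).natDegree ≤ ∑ k : Fin n, (X + C (σ k ^ 2) : ℂ[X]).natDegree :=
      natDegree_prod_le _ _
    simp only [natDegree_X_add_C, Finset.sum_const, Finset.card_univ, Fintype.card_fin,
      smul_eq_mul, mul_one] at h1
    omega
  have hQ : QQ σ = ∑ i ∈ P, C (q i : ℂ) * X ^ i := by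
    conv_lhs => rw [as_sum_range' (QQ σ) (n + 1) hdeg]
    rw [hP]
    refine Finset.sum_congr rfl fun i _ => ?_
    rw [hq, C_mul_X_pow_eq_monomial]
  have hQS : (QQ σ).eval S = ∑ i ∈ P, (q i : ℂ) * S ^ i := by
    rw [hQ, eval_finsetSum]
    refine Finset.sum_congr rfl fun i _ => ?_
    simp
  have hXQ : X * derivative (QQ σ) = ∑ i ∈ P, C ((i : ℂ) * q i) * X ^ i := by
    rw [hQ, derivative_sum, Finset.mul_sum]
    refine Finset.sum_congr rfl fun i _ => ?_
    rw [derivative_C_mul_X_pow]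
    rcases i with _ | i
    · simp
    · rw [Nat.add_sub_cancel, pow_succ, mul_comm ((i + 1 : ℕ) : ℂ) (q (i + 1) : ℂ)]
      ring
  have hSQ : S * (derivative (QQ σ)).eval S = ∑ j ∈ P, (j : ℂ) * q j * S ^ j := by
    have h1 := congrArg (eval S) hXQ
    rw [eval_mul, eval_X, eval_finsetSum] at h1
    rw [h1]
    refine Finset.sum_congr rfl fun i _ => ?_
    simp
  have hR : C ((QQ σ).eval S) * (X * derivative (QQ σ)) -
      C (S * (derivative (QQ σ)).eval S) * QQ σ =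
      ∑ i ∈ P, ∑ j ∈ P, C (((i : ℂ) - j) * q i * q j * S ^ j) * X ^ i := by
    rw [hXQ, hQS, hSQ, hQ, map_sum, map_sum, Finset.sum_mul_sum, Finset.sum_mul_sum,
      Finset.sum_comm, Finset.sum_comm (s := P) (t := P) (f := fun i j =>
        C ((i : ℂ) * (q i : ℂ) * S ^ i) * (C (q j : ℂ) * X ^ j)), ← Finset.sum_sub_distrib]
    refine Finset.sum_congr rfl fun i _ => ?_
    rw [← Finset.sum_sub_distrib]
    refine Finset.sum_congr rfl fun j _ => ?_
    simp only [map_mul, map_sub, map_pow]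
    ring
  have hT : (X - C S) * ∑ i ∈ P, ∑ j ∈ P, (if j < i then C (((i : ℂ) - j) * q i * q j) *
      ∑ l ∈ Finset.Ico j i, C (S ^ (i + j - 1 - l)) * X ^ l else 0) =
      ∑ i ∈ P, ∑ j ∈ P, C (((i : ℂ) - j) * q i * q j * S ^ j) * X ^ i := by
    rw [sym_ALG1 P (fun i j => C (((i : ℂ) - j) * q i * q j * S ^ j) * (X : ℂ[X]) ^ i)
      (fun i => by simp), Finset.mul_sum]
    refine Finset.sum_congr rfl fun i _ => ?_
    rw [Finset.mul_sum]
    refine Finset.sum_congr rfl fun j _ => ?_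
    split_ifs with h
    · calc (X - C S) * (C (((i : ℂ) - j) * q i * q j) *
          ∑ l ∈ Finset.Ico j i, C (S ^ (i + j - 1 - l)) * X ^ l)
          = C (((i : ℂ) - j) * q i * q j) * ((X - C S) *
          ∑ l ∈ Finset.Ico j i, C (S ^ (i + j - 1 - l)) * X ^ l) := by ring
        _ = _ := by
          rw [geo_ALG1 S i j h]
          simp only [map_mul, map_sub, map_pow]
          ring
    · rw [mul_zero]
  have hmain : C ((QQ σ).eval S) * ∑ k, C (σ k ^ 2 / (S + σ k ^ 2)) * QE σ k =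
      ∑ i ∈ P, ∑ j ∈ P, (if j < i then C (((i : ℂ) - j) * q i * q j) *
      ∑ l ∈ Finset.Ico j i, C (S ^ (i + j - 1 - l)) * X ^ l else 0) := by
    apply mul_left_cancel₀ (X_sub_C_ne_zero S)
    rw [step_ALG1 σ S hne, hR, hT]
  have hco := congrArg (fun p : ℂ[X] => p.coeff m) hmain
  simp only [coeff_C_mul, finsetSum_coeff] at hco
  have hl : ((∑ i ∈ Finset.range (n + 1), q i * s ^ i : ℝ) : ℂ) = (QQ σ).eval S := by
    rw [hQS, hP, hS]
    push_cast
    rfl
  rw [hl, hco, ← hP]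
  push_cast
  refine Finset.sum_congr rfl fun i _ => Finset.sum_congr rfl fun j _ => ?_
  split_ifs with h1 h2 h2
  · rw [coeff_C_mul, finsetSum_coeff, Finset.sum_eq_single m]
    · rw [coeff_C_mul, coeff_X_pow, if_pos rfl, hS]
      push_cast
      ring
    · intro l _ hl'
      rw [coeff_C_mul, coeff_X_pow, if_neg (Ne.symm hl'), mul_zero]
    · intro h3
      exact absurd (Finset.mem_Ico.2 h2) h3
  · rw [coeff_C_mul, finsetSum_coeff, Finset.sum_eq_zero]
    · simp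
    · intro l hl'
      rw [coeff_C_mul, coeff_X_pow, if_neg, mul_zero]
      rintro rfl
      exact h2 (Finset.mem_Ico.1 hl')
  · exact absurd (lt_of_le_of_lt h2.1 h2.2) h1
  · simp

end Pool.Agent.H565R2.EV
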