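import Pool.Agent.H565R2.EV.Defs

set_option autoImplicit false

open Polynomial

namespace Pool.Agent.H565R2.EV

private theorem rep_ALG2 (P : ℂ[X]) (N : ℕ) (h : ∀ j, N ≤ j → P.coeff j = 0) (a : ℕ → ℝ)
    (ha : ∀ j, P.coeff j = (a j : ℂ)) :
    P = ∑ j ∈ Finset.range N, C ((a j : ℂ)) * X ^ j := by
  ext j
  rw [Polynomial.finset_sum_coeff]
  simp only [coeff_C_mul_X_pow]
  rw [Finset.sum_ite_eq]
  split_ifs with hj
  · exact ha j
  · exact h j (by simpa using hj)

private theorem deg_ALG2 {n : ℕ} (σ : Fin n → ℂ) (S : Finset (Fin n)) :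
    (∏ k ∈ S, (X + C (σ k ^ 2)) : ℂ[X]).natDegree ≤ S.card := by
  refine (natDegree_prod_le _ _).trans ?_
  rw [Finset.card_eq_sum_ones]
  exact Finset.sum_le_sum fun k _ => natDegree_X_add_C _ |>.le

private theorem degQ_ALG2 {n : ℕ} (σ : Fin n → ℂ) (j : ℕ) (hj : n + 1 ≤ j) :
    (QQ σ).coeff j = 0 := by
  apply coeff_eq_zero_of_natDegree_lt
  have := deg_ALG2 σ Finset.univ
  rw [Finset.card_fin] at this
  unfold QQ
  omega

private theorem degW_ALG2 {n : ℕ} (σ : Fin n → ℂ) (j : ℕ) (hj : n ≤ j) :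
    (WW σ).coeff j = 0 := by
  unfold WW
  rw [Polynomial.finset_sum_coeff]
  refine Finset.sum_eq_zero fun k _ => ?_
  rw [coeff_C_mul]
  have h1 : (QE σ k).coeff j = 0 := by
    apply coeff_eq_zero_of_natDegree_lt
    have h2 := deg_ALG2 σ (Finset.univ.erase k)
    rw [Finset.card_erase_of_mem (Finset.mem_univ k), Finset.card_fin] at h2
    have h3 : 0 < n := Nat.pos_of_ne_zero fun h => by
      subst h
      exact k.elim0
    unfold QE
    omega
  rw [h1, mul_zero]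

private theorem F1_ALG2 {n : ℕ} (σ : Fin n → ℂ) (l : Fin n) :
    (X + C (σ l ^ 2)) * QE σ l = QQ σ := by
  unfold QE QQ
  exact Finset.mul_prod_erase Finset.univ (fun k => (X + C (σ k ^ 2) : ℂ[X])) (Finset.mem_univ l)

private theorem F2_ALG2 {n : ℕ} (σ : Fin n → ℂ) (l k : Fin n) (hk : k ∈ Finset.univ.erase l) :
    (X + C (σ k ^ 2)) * QEE σ l k = QE σ l := by
  unfold QEE QE
  exact Finset.mul_prod_erase (Finset.univ.erase l) (fun k => (X + C (σ k ^ 2) : ℂ[X])) hk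

private theorem D1_ALG2 {n : ℕ} (σ : Fin n → ℂ) :
    derivative (QQ σ) = ∑ k, QE σ k := by
  unfold QQ QE
  rw [derivative_prod_finset]
  refine Finset.sum_congr rfl fun k _ => ?_
  rw [derivative_add, derivative_X, derivative_C, add_zero, mul_one]

private theorem D2_ALG2 {n : ℕ} (σ : Fin n → ℂ) (l : Fin n) :
    derivative (QE σ l) = ∑ k ∈ Finset.univ.erase l, QEE σ l k := by
  unfold QEE QE
  rw [derivative_prod_finset]
  refine Finset.sum_congr rfl fun k _ => ?_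
  rw [derivative_add, derivative_X, derivative_C, add_zero, mul_one]

private theorem G1_ALG2 {n : ℕ} (σ : Fin n → ℂ) (l : Fin n) (s : ℂ) :
    (QQ σ).eval s = (s + σ l ^ 2) * (QE σ l).eval s := by
  rw [← F1_ALG2 σ l]
  simp

private theorem A_ALG2 {n : ℕ} (σ : Fin n → ℂ) (s : ℂ) (l : Fin n) :
    (X - C s) * ∑ k ∈ Finset.univ.erase l, C (σ k ^ 2 * (QE σ k).eval s) * QEE σ l k =
      C ((QQ σ).eval s) * X * derivative (QE σ l) -
        C (s * ((derivative (QQ σ)).eval s - (QE σ l).eval s)) * QE σ l := by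
  have h1 : ∀ k ∈ Finset.univ.erase l, (X - C s) * (C (σ k ^ 2 * (QE σ k).eval s) * QEE σ l k) =
      C ((QQ σ).eval s) * X * QEE σ l k - C (s * (QE σ k).eval s) * QE σ l := by
    intro k hk
    rw [← F2_ALG2 σ l k hk, G1_ALG2 σ k s]
    simp only [C_mul, C_add]
    ring
  rw [Finset.mul_sum, Finset.sum_congr rfl h1, Finset.sum_sub_distrib, ← Finset.mul_sum,
    ← D2_ALG2, ← Finset.sum_mul]
  congr 2
  rw [← map_sum, ← Finset.mul_sum, Finset.sum_erase_eq_sub (Finset.mem_univ l), D1_ALG2,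
    eval_finset_sum]

/-- the polynomial of the left side -/
private noncomputable def T_ALG2 {n : ℕ} (σ : Fin n → ℂ) (s : ℂ) : ℂ[X] :=
  ∑ l, C (σ l) * ∑ k ∈ Finset.univ.erase l, C (σ k ^ 2 * (QE σ k).eval s) * QEE σ l k

private theorem B_ALG2 {n : ℕ} (σ : Fin n → ℂ) (s : ℂ) :
    (X - C s) * T_ALG2 σ s = C ((QQ σ).eval s) * X * derivative (WW σ) -
      C (s * (derivative (QQ σ)).eval s) * WW σ +
      C s * ∑ l, C (σ l * (QE σ l).eval s) * QE σ l := by
  unfold T_ALG2 WW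
  rw [derivative_sum, Finset.mul_sum, Finset.mul_sum, Finset.mul_sum, Finset.mul_sum,
    ← Finset.sum_sub_distrib, ← Finset.sum_add_distrib]
  refine Finset.sum_congr rfl fun l _ => ?_
  have h1 := A_ALG2 σ s l
  rw [derivative_C_mul]
  calc (X - C s) * (C (σ l) * ∑ k ∈ Finset.univ.erase l,
        C (σ k ^ 2 * (QE σ k).eval s) * QEE σ l k)
      = C (σ l) * ((X - C s) * ∑ k ∈ Finset.univ.erase l,
        C (σ k ^ 2 * (QE σ k).eval s) * QEE σ l k) := by ring
    _ = _ := by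
      rw [h1]
      simp only [C_mul, C_sub]
      ring

private theorem C_ALG2 {n : ℕ} (σ : Fin n → ℂ) (s : ℂ) :
    (X - C s) * ∑ l, C (σ l * (QE σ l).eval s) * QE σ l =
      C ((WW σ).eval s) * QQ σ - C ((QQ σ).eval s) * WW σ := by
  have h1 : (WW σ).eval s = ∑ l, σ l * (QE σ l).eval s := by
    unfold WW
    rw [eval_finset_sum]
    simp
  rw [h1, map_sum, Finset.sum_mul, Finset.mul_sum]
  conv_rhs => rw [WW, Finset.mul_sum, ← Finset.sum_sub_distrib]
  refine Finset.sum_congr rfl fun l _ => ?_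
  rw [G1_ALG2 σ l s, ← F1_ALG2 σ l]
  simp only [C_mul, C_add]
  ring

private theorem main_ALG2 {n : ℕ} (σ : Fin n → ℂ) (s : ℂ) :
    (X - C s) ^ 2 * T_ALG2 σ s =
      (X - C s) * (C ((QQ σ).eval s) * (X * derivative (WW σ)) -
        C (s * (derivative (QQ σ)).eval s) * WW σ) +
      C s * (C ((WW σ).eval s) * QQ σ - C ((QQ σ).eval s) * WW σ) := by
  rw [← C_ALG2, pow_two, mul_assoc, B_ALG2]
  ring

/-- the right side for explicit polynomials -/
private theorem dbl_ALG2 (n : ℕ) (q w : ℕ → ℂ) (s : ℂ) (P Q W : ℂ[X])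
    (mmm : ℕ → ℕ → ℂ[X])
    (hmm : ∀ i j, (X - C s) ^ 2 * mmm i j = (X - C s) * (C (((j : ℂ) - i) * s ^ i) * X ^ j) +
      C s * (C (s ^ j) * X ^ i - C (s ^ i) * X ^ j))
    (hQ : Q = ∑ i ∈ Finset.range (n + 1), C (q i) * X ^ i)
    (hW : W = ∑ j ∈ Finset.range n, C (w j) * X ^ j)
    (hP : P = ∑ i ∈ Finset.range (n + 1), ∑ j ∈ Finset.range n, C (q i * w j) * mmm i j) :
    (X - C s) ^ 2 * P = (X - C s) * (C (Q.eval s) * (X * derivative W) -
        C (s * (derivative Q).eval s) * W) +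
      C s * (C (W.eval s) * Q - C (Q.eval s) * W) := by
  have e1 : Q.eval s = ∑ i ∈ Finset.range (n + 1), q i * s ^ i := by
    rw [hQ, eval_finset_sum]
    simp
  have e2 : W.eval s = ∑ j ∈ Finset.range n, w j * s ^ j := by
    rw [hW, eval_finset_sum]
    simp
  have e3 : X * derivative W = ∑ j ∈ Finset.range n, C (w j * j) * X ^ j := by
    rw [hW, derivative_sum, Finset.mul_sum]
    refine Finset.sum_congr rfl fun j _ => ?_
    rw [derivative_C_mul_X_pow]
    rcases j with _ | j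
    · simp
    · rw [Nat.add_sub_cancel, pow_succ]
      ring
  have e4 : s * (derivative Q).eval s = ∑ i ∈ Finset.range (n + 1), q i * i * s ^ i := by
    rw [hQ, derivative_sum, eval_finset_sum, Finset.mul_sum]
    refine Finset.sum_congr rfl fun i _ => ?_
    rw [derivative_C_mul_X_pow]
    rcases i with _ | i
    · simp
    · simp only [eval_mul, eval_C, eval_pow, eval_X, Nat.add_sub_cancel]
      rw [pow_succ]
      ring
  have hl : ∀ i ∈ Finset.range (n + 1), ∀ j ∈ Finset.range n,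
      (X - C s) ^ 2 * (C (q i * w j) * mmm i j) =
        (X - C s) * (C (q i * s ^ i) * (C (w j * j) * X ^ j) -
          C (q i * i * s ^ i) * (C (w j) * X ^ j)) +
        C s * ((C (q i) * X ^ i) * C (w j * s ^ j) - C (q i * s ^ i) * (C (w j) * X ^ j)) := by
    intro i _ j _
    have h1 : (X - C s) ^ 2 * (C (q i * w j) * mmm i j) =
        C (q i * w j) * ((X - C s) ^ 2 * mmm i j) := by ring
    rw [h1, hmm]
    simp only [C_mul, C_sub, C_pow]
    ring
  have hL : (X - C s) ^ 2 * P = ∑ i ∈ Finset.range (n + 1), ∑ j ∈ Finset.range n,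
      ((X - C s) * (C (q i * s ^ i) * (C (w j * j) * X ^ j) -
          C (q i * i * s ^ i) * (C (w j) * X ^ j)) +
        C s * ((C (q i) * X ^ i) * C (w j * s ^ j) - C (q i * s ^ i) * (C (w j) * X ^ j))) := by
    rw [hP]
    simp only [Finset.mul_sum]
    exact Finset.sum_congr rfl fun i hi => Finset.sum_congr rfl (hl i hi)
  rw [hL, e1, e2, e3, e4]
  conv_rhs => rw [hQ, hW]
  rw [map_sum, map_sum, map_sum, mul_comm (∑ x ∈ Finset.range n, C (w x * s ^ x)),
    Finset.sum_mul_sum, Finset.sum_mul_sum, Finset.sum_mul_sum, Finset.sum_mul_sum]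
  simp only [← Finset.sum_sub_distrib, Finset.mul_sum, ← Finset.sum_add_distrib]

theorem alg2_of (hMM : ∀ (i j : ℕ) (s : ℝ),
    (X - C s) ^ 2 * mm i j s =
      (X - C s) * (C (((j : ℝ) - i) * s ^ i) * X ^ j) +
        C s * (C (s ^ j) * X ^ i - C (s ^ i) * X ^ j))
    {n : ℕ} (σ : Fin n → ℂ) (q w : ℕ → ℝ) (hq : ∀ i, (QQ σ).coeff i = (q i : ℂ))
    (hw : ∀ j, (WW σ).coeff j = (w j : ℂ))
    (s : ℝ) (hne : ∀ k, (s : ℂ) + σ k ^ 2 ≠ 0) (m : ℕ) :
    ((∑ i ∈ Finset.range (n + 1), q i * s ^ i : ℝ) : ℂ) *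
        ∑ l, σ l * ∑ k ∈ Finset.univ.erase l,
          (σ k ^ 2 / ((s : ℂ) + σ k ^ 2)) * (QEE σ l k).coeff m =
      ((∑ i ∈ Finset.range (n + 1), ∑ j ∈ Finset.range n,
        q i * w j * (mm i j s).coeff m : ℝ) : ℂ) := by
  have hQ := rep_ALG2 (QQ σ) (n + 1) (degQ_ALG2 σ) q hq
  have hW := rep_ALG2 (WW σ) n (degW_ALG2 σ) w hw
  have hmm : ∀ i j, (X - C (s : ℂ)) ^ 2 * (mm i j s).map Complex.ofRealHom =
      (X - C (s : ℂ)) * (C (((j : ℂ) - i) * (s : ℂ) ^ i) * X ^ j) +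
      C (s : ℂ) * (C ((s : ℂ) ^ j) * X ^ i - C ((s : ℂ) ^ i) * X ^ j) := by
    intro i j
    have h1 := congrArg (Polynomial.map Complex.ofRealHom) (hMM i j s)
    simpa [Polynomial.map_mul, Polynomial.map_add, Polynomial.map_sub, Polynomial.map_pow] using h1
  have h1 := dbl_ALG2 n (fun i => (q i : ℂ)) (fun j => (w j : ℂ)) (s : ℂ)
    (∑ i ∈ Finset.range (n + 1), ∑ j ∈ Finset.range n,
      C ((q i : ℂ) * (w j : ℂ)) * (mm i j s).map Complex.ofRealHom) (QQ σ) (WW σ)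
    (fun i j => (mm i j s).map Complex.ofRealHom) hmm hQ hW rfl
  rw [← main_ALG2] at h1
  have hX : (X - C (s : ℂ)) ^ 2 ≠ 0 := pow_ne_zero 2 (X_sub_C_ne_zero _)
  have h2 := mul_left_cancel₀ hX h1
  have h3 := congrArg (fun P : ℂ[X] => P.coeff m) h2
  simp only [Polynomial.finset_sum_coeff, coeff_C_mul, coeff_map] at h3
  have hQs : ((∑ i ∈ Finset.range (n + 1), q i * s ^ i : ℝ) : ℂ) = (QQ σ).eval (s : ℂ) := by
    conv_rhs => rw [hQ, eval_finset_sum]
    push_cast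
    simp
  have hT : (T_ALG2 σ (s : ℂ)).coeff m = (QQ σ).eval (s : ℂ) *
      ∑ l, σ l * ∑ k ∈ Finset.univ.erase l,
          (σ k ^ 2 / ((s : ℂ) + σ k ^ 2)) * (QEE σ l k).coeff m := by
    unfold T_ALG2
    rw [Polynomial.finset_sum_coeff, Finset.mul_sum]
    refine Finset.sum_congr rfl fun l _ => ?_
    rw [coeff_C_mul, Polynomial.finset_sum_coeff, mul_left_comm]
    congr 1
    rw [Finset.mul_sum]
    refine Finset.sum_congr rfl fun k _ => ?_
    rw [coeff_C_mul, G1_ALG2 σ k (s : ℂ)]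
    have := hne k
    field_simp
  rw [hQs, ← hT, ← h3]
  push_cast
  refine Finset.sum_congr rfl fun i _ => Finset.sum_congr rfl fun j _ => ?_
  rfl

end Pool.Agent.H565R2.EV
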