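import Pool.Agent.H565R2.EV.Defs

/-! CALC (helper873) -/

set_option autoImplicit false

open Polynomial Set MeasureTheory

namespace Pool.Agent.H565R2.EV

private theorem ev_CALC (f' f'' : ℝ → ℝ) (h2 : ∀ t, HasDerivAt f' (f'' t) t)
    (h : 0 < f' 0 ∨ (f' 0 = 0 ∧ 0 < f'' 0)) :
    ∃ ε > (0 : ℝ), ∀ t, 0 < t → t < ε → 0 ≤ f' t := by
  rcases h with h | ⟨h0, h⟩
  · have h3 := (h2 0).continuousAt.eventually (lt_mem_nhds h)
    obtain ⟨ε, hε, h4⟩ := Metric.eventually_nhds_iff.1 h3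
    refine ⟨ε, hε, fun t ht ht' => (h4 ?_).le⟩
    rw [Real.dist_eq, sub_zero, abs_of_pos ht]
    exact ht'
  · have h3 := (hasDerivAt_iff_tendsto_slope.1 (h2 0)).eventually (lt_mem_nhds h)
    rw [eventually_nhdsWithin_iff] at h3
    obtain ⟨ε, hε, h4⟩ := Metric.eventually_nhds_iff.1 h3
    refine ⟨ε, hε, fun t ht ht' => ?_⟩
    have h5 := h4 (y := t) (by rw [Real.dist_eq, sub_zero, abs_of_pos ht]; exact ht') ht.ne'
    rw [slope_def_field, h0, sub_zero, sub_zero] at h5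
    exact ((div_pos_iff_of_pos_right ht).1 h5).le

/-- CALC -/
theorem calc_mono (f f' f'' : ℝ → ℝ) (h1 : ∀ t, HasDerivAt f (f' t) t)
    (h2 : ∀ t, HasDerivAt f' (f'' t) t) (h : 0 < f' 0 ∨ (f' 0 = 0 ∧ 0 < f'' 0)) :
    ∃ ε > (0 : ℝ), MonotoneOn f (Icc 0 ε) := by
  obtain ⟨ε, hε, h3⟩ := ev_CALC f' f'' h2 h
  refine ⟨ε, hε, monotoneOn_of_deriv_nonneg (convex_Icc 0 ε)
    (fun t _ => (h1 t).continuousAt.continuousWithinAt)
    (fun t _ => (h1 t).differentiableAt.differentiableWithinAt) fun t ht => ?_⟩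
  rw [interior_Icc] at ht
  rw [(h1 t).deriv]
  exact h3 t ht.1 ht.2

end Pool.Agent.H565R2.EV
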