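import Pool.Agent.H565R2.EV.Defs

set_option autoImplicit false

open Polynomial

namespace Pool.Agent.H565R2.EV

private theorem CD_mul_CDP {F G : ℝ → ℝ[X]} {F' G' : ℝ[X]} {t : ℝ} (hF : CD F F' t)
    (hG : CD G G' t) : CD (fun u => F u * G u) (F' * G t + F t * G') t := by
  intro j
  simp only [coeff_mul, coeff_add]
  have h : HasDerivAt (fun u => ∑ x ∈ Finset.HasAntidiagonal.antidiagonal j, (F u).coeff x.1 * (G u).coeff x.2)
      (∑ x ∈ Finset.HasAntidiagonal.antidiagonal j, (F'.coeff x.1 * (G t).coeff x.2 +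
        (F t).coeff x.1 * G'.coeff x.2)) t := by
    have := HasDerivAt.fun_sum (u := Finset.HasAntidiagonal.antidiagonal j)
      (A := fun x u => (F u).coeff x.1 * (G u).coeff x.2)
      (A' := fun x => F'.coeff x.1 * (G t).coeff x.2 + (F t).coeff x.1 * G'.coeff x.2)
      (x := t) (fun x _ => (hF x.1).mul (hG x.2))
    exact this
  rw [Finset.sum_add_distrib] at h
  exact h

/-- CDP -/
theorem CD_prod {ι : Type} [DecidableEq ι] (S : Finset ι) (F : ι → ℝ → ℝ[X]) (F' : ι → ℝ[X])
    (t : ℝ) (h : ∀ i ∈ S, CD (F i) (F' i) t) :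
    CD (fun u => ∏ i ∈ S, F i u) (∑ i ∈ S, F' i * ∏ l ∈ S.erase i, F l t) t := by
  induction S using Finset.induction_on with
  | empty =>
    intro j
    simp only [Finset.prod_empty, Finset.sum_empty, coeff_zero]
    exact hasDerivAt_const t _
  | insert i S hi ih =>
    have h1 := ih (fun k hk => h k (Finset.mem_insert_of_mem hk))
    have h2 := CD_mul_CDP (h i (Finset.mem_insert_self i S)) h1
    have e1 : (fun u => ∏ k ∈ insert i S, F k u) = fun u => F i u * ∏ k ∈ S, F k u := by
      funext u
      rw [Finset.prod_insert hi]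
    have e2 : (∑ k ∈ insert i S, F' k * ∏ l ∈ (insert i S).erase k, F l t) =
        F' i * (∏ k ∈ S, F k t) + F i t * ∑ k ∈ S, F' k * ∏ l ∈ S.erase k, F l t := by
      rw [Finset.sum_insert hi, Finset.erase_insert hi, Finset.mul_sum]
      congr 1
      refine Finset.sum_congr rfl (fun k hk => ?_)
      have hki : i ≠ k := fun h => hi (h ▸ hk)
      rw [Finset.erase_insert_of_ne hki, Finset.prod_insert
        (fun h => hi (Finset.mem_of_mem_erase h))]
      ring
    rw [e1, e2]
    exact h2

end Pool.Agent.H565R2.EV
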