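import Pool.Agent.H565R2.EV.Defs

set_option autoImplicit false

open Polynomial

namespace Pool.Agent.H565R2.EV

namespace DER353

theorem cd_mul {F G : ℝ → ℝ[X]} {F' G' : ℝ[X]} {t : ℝ} (hF : CD F F' t) (hG : CD G G' t) :
    CD (fun u => F u * G u) (F' * G t + F t * G') t := by
  intro j
  simp only [Polynomial.coeff_add, Polynomial.coeff_mul, ← Finset.sum_add_distrib]
  apply HasDerivAt.fun_sum
  intro x _
  exact (hF x.1).mul (hG x.2)

theorem cd_prod {ι : Type} [DecidableEq ι] (S : Finset ι) (F : ι → ℝ → ℝ[X]) (F' : ι → ℝ[X])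
    (t : ℝ) (h : ∀ i ∈ S, CD (F i) (F' i) t) :
    CD (fun u => ∏ i ∈ S, F i u) (∑ i ∈ S, F' i * ∏ l ∈ S.erase i, F l t) t := by
  induction S using Finset.induction_on with
  | empty =>
    intro j
    simp only [Finset.prod_empty, Finset.sum_empty, Polynomial.coeff_zero]
    exact hasDerivAt_const _ _
  | insert a S ha ih =>
    have h1 := cd_mul (h a (Finset.mem_insert_self a S))
      (ih fun i hi => h i (Finset.mem_insert_of_mem hi))
    have h2 : (fun u => ∏ i ∈ insert a S, F i u) = fun u => F a u * ∏ i ∈ S, F i u := by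
      funext u
      rw [Finset.prod_insert ha]
    rw [h2]
    have h3 : ∑ i ∈ insert a S, F' i * ∏ l ∈ (insert a S).erase i, F l t =
        F' a * ∏ i ∈ S, F i t + F a t * ∑ i ∈ S, F' i * ∏ l ∈ S.erase i, F l t := by
      rw [Finset.sum_insert ha, Finset.erase_insert ha]
      congr 1
      rw [Finset.mul_sum]
      apply Finset.sum_congr rfl
      intro i hi
      have hia : i ≠ a := fun h => ha (h ▸ hi)
      rw [Finset.erase_insert_of_ne hia.symm, Finset.prod_insert
        (fun h' => ha (Finset.mem_of_mem_erase h'))]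
      ring
    rw [h3]
    exact h1

theorem cd_C_mul {c : ℝ → ℝ} {c' t : ℝ} (h : HasDerivAt c c' t) (P : ℝ[X]) :
    CD (fun u => C (c u) * P) (C c' * P) t := by
  intro j
  simp only [Polynomial.coeff_C_mul]
  exact h.mul_const _

theorem cd_const (P : ℝ[X]) (t : ℝ) : CD (fun _ => P) 0 t := by
  intro j
  simp only [Polynomial.coeff_zero]
  exact hasDerivAt_const _ _

theorem cd_add {F G : ℝ → ℝ[X]} {F' G' : ℝ[X]} {t : ℝ} (hF : CD F F' t) (hG : CD G G' t) :
    CD (fun u => F u + G u) (F' + G') t := by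
  intro j
  simp only [Polynomial.coeff_add]
  exact (hF j).add (hG j)

theorem cd_sub {F G : ℝ → ℝ[X]} {F' G' : ℝ[X]} {t : ℝ} (hF : CD F F' t) (hG : CD G G' t) :
    CD (fun u => F u - G u) (F' - G') t := by
  intro j
  simp only [Polynomial.coeff_sub]
  exact (hF j).sub (hG j)

theorem cd_sum {ι : Type} (S : Finset ι) {F : ι → ℝ → ℝ[X]} {F' : ι → ℝ[X]} {t : ℝ}
    (h : ∀ i ∈ S, CD (F i) (F' i) t) : CD (fun u => ∑ i ∈ S, F i u) (∑ i ∈ S, F' i) t := by
  intro j
  simp only [Polynomial.finset_sum_coeff]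
  apply HasDerivAt.fun_sum
  intro i hi
  exact h i hi j

theorem cd_congr {F : ℝ → ℝ[X]} {F' G' : ℝ[X]} {t : ℝ} (h : CD F F' t) (he : F' = G') :
    CD F G' t := he ▸ h

/-- the factor -/
theorem cd_factor (r a t : ℝ) :
    CD (fun u => (X ^ 2 - C (2 * r * Real.cos (u + a)) * X + C (r ^ 2) : ℝ[X]))
      (C (2 * r * Real.sin (t + a)) * X) t := by
  have h1 : HasDerivAt (fun u : ℝ => 2 * r * Real.cos (u + a)) (2 * r * (-Real.sin (t + a))) t := by
    have h := ((Real.hasDerivAt_cos (t + a)).comp t ((hasDerivAt_id t).add_const a)).const_mul (2 * r)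
    simpa using h
  have h2 := cd_add (cd_sub (cd_const (X ^ 2 : ℝ[X]) t) (cd_C_mul h1 (X : ℝ[X])))
    (cd_const (C (r ^ 2) : ℝ[X]) t)
  refine cd_congr h2 ?_
  rw [mul_neg, C_neg]
  ring

theorem cd_sin (r a t : ℝ) :
    CD (fun u => (C (2 * r * Real.sin (u + a)) * X : ℝ[X]))
      (C (2 * r * Real.cos (t + a)) * X) t := by
  have h1 : HasDerivAt (fun u : ℝ => 2 * r * Real.sin (u + a)) (2 * r * Real.cos (t + a)) t := by
    have h := ((Real.hasDerivAt_sin (t + a)).comp t ((hasDerivAt_id t).add_const a)).const_mul (2 * r)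
    simpa using h
  exact cd_C_mul h1 (X : ℝ[X])

end DER353

open DER353

/-- DER1 -/
theorem der1 {n : ℕ} (r a : Fin n → ℝ) (t : ℝ) :
    CD (fun u => rot0 r (fun k => u + a k)) (D1 r (fun k => t + a k)) t := by
  unfold rot0 D1
  exact cd_prod Finset.univ
    (fun k u => (X ^ 2 - C (2 * r k * Real.cos (u + a k)) * X + C (r k ^ 2) : ℝ[X]))
    (fun k => C (2 * r k * Real.sin (t + a k)) * X) t (fun k _ => cd_factor (r k) (a k) t)

/-- DER2 -/
theorem der2 {n : ℕ} (r a : Fin n → ℝ) (t : ℝ) :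
    CD (fun u => D1 r (fun k => u + a k)) (D2 r (fun k => t + a k)) t := by
  unfold D1
  have h := cd_sum Finset.univ (fun (k : Fin n) _ =>
    cd_mul (cd_sin (r k) (a k) t) (cd_prod (Finset.univ.erase k)
      (fun l u => (X ^ 2 - C (2 * r l * Real.cos (u + a l)) * X + C (r l ^ 2) : ℝ[X]))
      (fun l => C (2 * r l * Real.sin (t + a l)) * X) t
      (fun l _ => cd_factor (r l) (a l) t)))
  refine cd_congr h ?_
  unfold D2
  rw [Finset.sum_add_distrib]
  congr 1
  apply Finset.sum_congr rfl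
  intro k _
  rw [Finset.mul_sum]
  apply Finset.sum_congr rfl
  intro l _
  have h1 : (C (4 * (r k * Real.sin (t + a k)) * (r l * Real.sin (t + a l))) : ℝ[X]) =
      C (2 * r k * Real.sin (t + a k)) * C (2 * r l * Real.sin (t + a l)) := by
    rw [← C_mul]
    congr 1
    ring
  rw [h1]
  ring

end Pool.Agent.H565R2.EV
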