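import Mathlib

set_option autoImplicit false

open Polynomial

namespace Pool.Agent.H565R2.EV

/-- `prod_k (X^2 - 2 r_k cos(b_k) X + r_k^2)`, zeros `r_k e^(+- i b_k)`. -/
noncomputable def rot0 {n : ℕ} (r b : Fin n → ℝ) : ℝ[X] :=
  ∏ k, (X ^ 2 - C (2 * r k * Real.cos (b k)) * X + C (r k ^ 2))

/-- derivative of `t -> rot0 r (t + b)` at `t = 0`. -/
noncomputable def D1 {n : ℕ} (r b : Fin n → ℝ) : ℝ[X] :=
  ∑ k, C (2 * r k * Real.sin (b k)) * X *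
    ∏ l ∈ Finset.univ.erase k, (X ^ 2 - C (2 * r l * Real.cos (b l)) * X + C (r l ^ 2))

/-- second derivative of `t -> rot0 r (t + b)` at `t = 0`. -/
noncomputable def D2 {n : ℕ} (r b : Fin n → ℝ) : ℝ[X] :=
  ∑ k, C (2 * r k * Real.cos (b k)) * X *
      ∏ l ∈ Finset.univ.erase k, (X ^ 2 - C (2 * r l * Real.cos (b l)) * X + C (r l ^ 2)) +
    ∑ k, ∑ l ∈ Finset.univ.erase k,
      C (4 * (r k * Real.sin (b k)) * (r l * Real.sin (b l))) * X ^ 2 *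
        ∏ i ∈ (Finset.univ.erase k).erase l,
          (X ^ 2 - C (2 * r i * Real.cos (b i)) * X + C (r i ^ 2))

/-- the zeros in the upper half plane (for `0 < b_k < π`). -/
noncomputable def wz {n : ℕ} (r b : Fin n → ℝ) (k : Fin n) : ℂ :=
  (r k : ℂ) * Complex.exp ((b k : ℂ) * Complex.I)

/-- `sigma_k = - i w_k`, in the right half plane. -/
noncomputable def sg {n : ℕ} (r b : Fin n → ℝ) (k : Fin n) : ℂ := -Complex.I * wz r b k

/-- `Q(Y) = prod (Y + sigma_k^2)`. -/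
noncomputable def QQ {n : ℕ} (σ : Fin n → ℂ) : ℂ[X] := ∏ k, (X + C (σ k ^ 2))

/-- `Q(Y) / (Y + sigma_k^2)`. -/
noncomputable def QE {n : ℕ} (σ : Fin n → ℂ) (k : Fin n) : ℂ[X] :=
  ∏ l ∈ Finset.univ.erase k, (X + C (σ l ^ 2))

/-- `Q(Y) / ((Y + sigma_l^2) (Y + sigma_k^2))` (for `k ≠ l`). -/
noncomputable def QEE {n : ℕ} (σ : Fin n → ℂ) (l k : Fin n) : ℂ[X] :=
  ∏ i ∈ (Finset.univ.erase l).erase k, (X + C (σ i ^ 2))

/-- `W = sum sigma_k Q / (Y + sigma_k^2)`. -/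
noncomputable def WW {n : ℕ} (σ : Fin n → ℂ) : ℂ[X] := ∑ k, C (σ k) * QE σ k

/-- `E = sum_(k≠l) sigma_k sigma_l Q / ((Y + sigma_k^2)(Y + sigma_l^2))`. -/
noncomputable def EE {n : ℕ} (σ : Fin n → ℂ) : ℂ[X] :=
  ∑ l, ∑ k ∈ Finset.univ.erase l, C (σ l * σ k) * QEE σ l k

/-- complete homogeneous polynomial `h_m(X, s) = sum_(b<=m) s^(m-b) X^b`. -/
noncomputable def hh (m : ℕ) (s : ℝ) : ℝ[X] := ∑ b ∈ Finset.range (m + 1), C (s ^ (m - b)) * X ^ b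

/-- polynomials with nonnegative coefficients such that
`(X-s)^2 mm = (X-s) (j-i) s^i X^j + s (s^j X^i - s^i X^j)`. -/
noncomputable def mm (i j : ℕ) (s : ℝ) : ℝ[X] :=
  if i < j then
    C (s ^ i) * X ^ i * ∑ a ∈ Finset.range (j - i), X ^ a * hh (j - i - a - 1) s
  else
    C (s ^ j) * X ^ j * ∑ a ∈ Finset.range (i - j), C (s ^ (i - j - a)) *
      (if a = 0 then 0 else hh (a - 1) s)

/-- coefficientwise derivative of a family of polynomials. -/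
def CD (F : ℝ → ℝ[X]) (F' : ℝ[X]) (t : ℝ) : Prop :=
  ∀ j, HasDerivAt (fun u => (F u).coeff j) (F'.coeff j) t

end Pool.Agent.H565R2.EV
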