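import Mathlib
import Pool.Agent.H565R2.EV.Defs

set_option autoImplicit false

open Polynomial

namespace Pool.Agent.H565R2.EV

private theorem factor_ENDS (p q : ℝ) :
    (X ^ 2 - C p * X + C q : ℝ[X]).Monic ∧ (X ^ 2 - C p * X + C q : ℝ[X]).natDegree = 2 := by
  constructor
  · monicity!
  · compute_degree!

private theorem prod_ENDS {n : ℕ} (r b : Fin n → ℝ) :
    (rot0 r b).Monic ∧ (rot0 r b).natDegree = 2 * n := by
  unfold rot0
  have hm : ∀ k ∈ (Finset.univ : Finset (Fin n)),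
      (X ^ 2 - C (2 * r k * Real.cos (b k)) * X + C (r k ^ 2) : ℝ[X]).Monic :=
    fun k _ => (factor_ENDS _ _).1
  refine ⟨monic_prod_of_monic _ _ hm, ?_⟩
  rw [natDegree_prod_of_monic _ _ hm, Finset.sum_congr rfl fun k _ => (factor_ENDS _ _).2]
  simp [mul_comm]

/-- ENDS -/
theorem ends {n : ℕ} (r b : Fin n → ℝ) :
    (rot0 r b).coeff 0 = ∏ k, r k ^ 2 ∧ (rot0 r b).coeff (2 * n) = 1 ∧
      ∀ j, 2 * n < j → (rot0 r b).coeff j = 0 := by
  obtain ⟨hm, hd⟩ := prod_ENDS r b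
  refine ⟨?_, ?_, ?_⟩
  · rw [coeff_zero_eq_eval_zero, rot0, eval_prod]
    refine Finset.prod_congr rfl fun k _ => ?_
    simp
  · have h := hm.coeff_natDegree
    rwa [hd] at h
  · intro j hj
    exact coeff_eq_zero_of_natDegree_lt (by rw [hd]; exact hj)

end Pool.Agent.H565R2.EV
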