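import Pool.Agent.H565R2.EV.Defs

set_option autoImplicit false

open Polynomial Set MeasureTheory

namespace Pool.Agent.H565R2.EV

theorem coeff_W_EPOS {n : ℕ} (σ : Fin n → ℂ) {j : ℕ} (hj : n ≤ j) : (WW σ).coeff j = 0 := by
  unfold WW
  rw [finsetSum_coeff]
  apply Finset.sum_eq_zero
  intro k _
  rw [coeff_C_mul]
  have h1 : (QE σ k).natDegree < j := by
    unfold QE
    have h2 : (∏ l ∈ Finset.univ.erase k, (X + C (σ l ^ 2))).natDegree ≤
        ∑ l ∈ Finset.univ.erase k, (X + C (σ l ^ 2) : ℂ[X]).natDegree := natDegree_prod_le _ _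
    have h3 : ∑ l ∈ Finset.univ.erase k, (X + C (σ l ^ 2) : ℂ[X]).natDegree = n - 1 := by
      rw [Finset.sum_congr rfl (fun l _ => natDegree_X_add_C (σ l ^ 2))]
      simp [Finset.card_erase_of_mem]
    have : 0 < n := k.pos
    omega
  rw [coeff_eq_zero_of_natDegree_lt h1, mul_zero]

theorem coeff_Q_EPOS {n : ℕ} (σ : Fin n → ℂ) : (QQ σ).coeff n = 1 := by
  have hm : (QQ σ).Monic := monic_prod_of_monic _ _ (fun k _ => monic_X_add_C _)
  have hd : (QQ σ).natDegree = n := by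
    unfold QQ
    rw [natDegree_prod_of_monic _ _ (fun k _ => monic_X_add_C _),
      Finset.sum_congr rfl (fun l _ => natDegree_X_add_C (σ l ^ 2))]
    simp
  have := hm.coeff_natDegree
  rwa [hd] at this

theorem ne_EPOS {σ : ℂ} (hσ : 0 < σ.re) (y : ℝ) : (y : ℂ) ^ 2 + σ ^ 2 ≠ 0 := by
  intro h
  have h1 : (σ - Complex.I * y) * (σ + Complex.I * y) = 0 := by
    have : (σ - Complex.I * y) * (σ + Complex.I * y) = σ ^ 2 - Complex.I ^ 2 * y ^ 2 := by ring
    rw [this, Complex.I_sq]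
    linear_combination h
  rcases mul_eq_zero.1 h1 with h2 | h2
  · have := congrArg Complex.re h2
    simp at this
    linarith
  · have := congrArg Complex.re h2
    simp at this
    linarith

/-- EPOS -/
theorem E_pos_of
    (hint : ∀ (σ : ℂ), 0 < σ.re →
      IntegrableOn (fun y : ℝ => ((y : ℂ) ^ 2 + σ ^ 2)⁻¹) (Ioi (0 : ℝ)) ∧
        ∫ y in Ioi (0 : ℝ), ((y : ℂ) ^ 2 + σ ^ 2)⁻¹ = (Real.pi : ℂ) / (2 * σ))
    (hpos : ∀ (f : ℝ → ℂ) (g : ℝ → ℝ), IntegrableOn f (Ioi (0 : ℝ)) →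
      (∀ y > (0 : ℝ), f y = (g y : ℂ)) → (∀ y > (0 : ℝ), 0 < g y) →
      ∃ ρ : ℝ, 0 < ρ ∧ ∫ y in Ioi (0 : ℝ), f y = (ρ : ℂ))
    (halg2 : ∀ {n : ℕ} (σ : Fin n → ℂ) (q w : ℕ → ℝ), (∀ i, (QQ σ).coeff i = (q i : ℂ)) →
      (∀ j, (WW σ).coeff j = (w j : ℂ)) →
      ∀ (s : ℝ), (∀ k, (s : ℂ) + σ k ^ 2 ≠ 0) → ∀ (m : ℕ),
      ((∑ i ∈ Finset.range (n + 1), q i * s ^ i : ℝ) : ℂ) *
          ∑ l, σ l * ∑ k ∈ Finset.univ.erase l,
            (σ k ^ 2 / ((s : ℂ) + σ k ^ 2)) * (QEE σ l k).coeff m =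
        ((∑ i ∈ Finset.range (n + 1), ∑ j ∈ Finset.range n,
          q i * w j * (mm i j s).coeff m : ℝ) : ℂ))
    (hmm_nonneg : ∀ (i j : ℕ) (s : ℝ), 0 < s → ∀ (m : ℕ), 0 ≤ (mm i j s).coeff m)
    (hmm_pos : ∀ (n : ℕ) (s : ℝ), 0 < s → ∀ (m : ℕ), m + 2 ≤ n → 0 < (mm n 0 s).coeff m)
    (hWpos : ∀ {n : ℕ} (σ : Fin n → ℂ), (∀ k, 0 < (σ k).re) → ∀ (q : ℕ → ℝ),
      (∀ i, (QQ σ).coeff i = (q i : ℂ)) → (∀ i, 0 ≤ q i) → ∀ (m : ℕ), m < n →
      ∃ ρ : ℝ, 0 < ρ ∧ (WW σ).coeff m = (ρ : ℂ))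
    {n : ℕ} (σ : Fin n → ℂ) (hσ : ∀ k, 0 < (σ k).re) (q : ℕ → ℝ)
    (hq : ∀ i, (QQ σ).coeff i = (q i : ℂ)) (hq0 : ∀ i, 0 ≤ q i) (m : ℕ) (hm : m + 2 ≤ n) :
    ∃ ρ : ℝ, 0 < ρ ∧ (EE σ).coeff m = (ρ : ℂ) := by
  classical
  -- the coefficients of W
  have hw : ∃ w : ℕ → ℝ, (∀ j, (WW σ).coeff j = (w j : ℂ)) ∧ (∀ j, 0 ≤ w j) ∧ 0 < w 0 := by
    have h1 : ∀ j, ∃ x : ℝ, (WW σ).coeff j = (x : ℂ) ∧ 0 ≤ x ∧ (j < n → 0 < x) := by
      intro j
      by_cases hj : j < n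
      · obtain ⟨ρ, h2, h3⟩ := hWpos σ hσ q hq hq0 j hj
        exact ⟨ρ, h3, h2.le, fun _ => h2⟩
      · refine ⟨0, ?_, le_rfl, fun h => absurd h hj⟩
        rw [coeff_W_EPOS σ (by omega)]
        simp
    choose w h2 h3 h4 using h1
    exact ⟨w, h2, h3, h4 0 (by omega)⟩
  obtain ⟨w, hw1, hw2, hw3⟩ := hw
  have hqn : q n = 1 := by
    have h1 := hq n
    rw [coeff_Q_EPOS] at h1
    exact_mod_cast h1.symm
  set F : ℝ → ℂ := fun y => ∑ l, ∑ k ∈ Finset.univ.erase l,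
    (σ l * σ k ^ 2 * (QEE σ l k).coeff m) * ((y : ℂ) ^ 2 + σ k ^ 2)⁻¹ with hF
  set Qs : ℝ → ℝ := fun y => ∑ i ∈ Finset.range (n + 1), q i * (y ^ 2) ^ i with hQs
  set Nm : ℝ → ℝ := fun y => ∑ i ∈ Finset.range (n + 1), ∑ j ∈ Finset.range n,
    q i * w j * (mm i j (y ^ 2)).coeff m with hNm
  have hQpos : ∀ y : ℝ, 0 < y → 0 < Qs y := by
    intro y hy
    have h1 : q n * (y ^ 2) ^ n ≤ Qs y := by
      rw [hQs]
      exact Finset.single_le_sum (f := fun i => q i * (y ^ 2) ^ i)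
        (fun i _ => mul_nonneg (hq0 i) (by positivity)) (Finset.mem_range.2 (Nat.lt_succ_self n))
    have h2 : 0 < q n * (y ^ 2) ^ n := by rw [hqn]; positivity
    linarith
  have hNpos : ∀ y : ℝ, 0 < y → 0 < Nm y := by
    intro y hy
    have hy2 : 0 < y ^ 2 := by positivity
    have hterm : ∀ i j, 0 ≤ q i * w j * (mm i j (y ^ 2)).coeff m := fun i j =>
      mul_nonneg (mul_nonneg (hq0 i) (hw2 j)) (hmm_nonneg i j _ hy2 m)
    have h1 : ∑ j ∈ Finset.range n, q n * w j * (mm n j (y ^ 2)).coeff m ≤ Nm y := by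
      rw [hNm]
      exact Finset.single_le_sum
        (f := fun i => ∑ j ∈ Finset.range n, q i * w j * (mm i j (y ^ 2)).coeff m)
        (fun i _ => Finset.sum_nonneg (fun j _ => hterm i j))
        (Finset.mem_range.2 (Nat.lt_succ_self n))
    have h2 : q n * w 0 * (mm n 0 (y ^ 2)).coeff m ≤
        ∑ j ∈ Finset.range n, q n * w j * (mm n j (y ^ 2)).coeff m :=
      Finset.single_le_sum (f := fun j => q n * w j * (mm n j (y ^ 2)).coeff m)
        (fun j _ => hterm n j) (Finset.mem_range.2 (by omega))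
    have h3 : 0 < q n * w 0 * (mm n 0 (y ^ 2)).coeff m := by
      rw [hqn, one_mul]
      exact mul_pos hw3 (hmm_pos n _ hy2 m hm)
    linarith
  have hFint : IntegrableOn F (Ioi (0 : ℝ)) := by
    rw [hF]
    apply integrable_finsetSum
    intro l _
    apply integrable_finsetSum
    intro k _
    exact ((hint (σ k) (hσ k)).1).const_mul _
  have hFg : ∀ y > (0 : ℝ), F y = ((Nm y / Qs y : ℝ) : ℂ) := by
    intro y hy
    have hne : ∀ k, (((y ^ 2 : ℝ) : ℂ)) + σ k ^ 2 ≠ 0 := by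
      intro k
      have := ne_EPOS (hσ k) y
      push_cast
      exact this
    have h1 := halg2 σ q w hq hw1 (y ^ 2) hne m
    have h2 : F y = ∑ l, σ l * ∑ k ∈ Finset.univ.erase l,
            (σ k ^ 2 / (((y ^ 2 : ℝ) : ℂ) + σ k ^ 2)) * (QEE σ l k).coeff m := by
      rw [hF]
      apply Finset.sum_congr rfl
      intro l _
      rw [Finset.mul_sum]
      apply Finset.sum_congr rfl
      intro k _
      push_cast
      rw [div_eq_mul_inv]
      ring
    have h3 : ((Qs y : ℝ) : ℂ) ≠ 0 := by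
      exact_mod_cast (hQpos y hy).ne'
    rw [h2, Complex.ofReal_div, eq_div_iff h3, mul_comm]
    exact h1
  obtain ⟨ρ, hρ, hI⟩ := hpos F (fun y => Nm y / Qs y) hFint hFg
    (fun y hy => div_pos (hNpos y hy) (hQpos y hy))
  have hI2 : ∫ y in Ioi (0 : ℝ), F y = (Real.pi : ℂ) / 2 * (EE σ).coeff m := by
    have h1 : ∫ y in Ioi (0 : ℝ), F y = ∑ l, ∑ k ∈ Finset.univ.erase l,
        (σ l * σ k ^ 2 * (QEE σ l k).coeff m) * ((Real.pi : ℂ) / (2 * σ k)) := by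
      rw [hF]
      rw [integral_finsetSum]
      · apply Finset.sum_congr rfl
        intro l _
        rw [integral_finsetSum]
        · apply Finset.sum_congr rfl
          intro k _
          rw [integral_const_mul, (hint (σ k) (hσ k)).2]
        · intro k _
          exact ((hint (σ k) (hσ k)).1).const_mul _
      · intro l _
        apply integrable_finsetSum
        intro k _
        exact ((hint (σ k) (hσ k)).1).const_mul _
    have h2 : (EE σ).coeff m = ∑ l, ∑ k ∈ Finset.univ.erase l,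
        σ l * σ k * (QEE σ l k).coeff m := by
      unfold EE
      rw [finsetSum_coeff]
      apply Finset.sum_congr rfl
      intro l _
      rw [finsetSum_coeff]
      apply Finset.sum_congr rfl
      intro k _
      rw [coeff_C_mul]
    rw [h1, h2, Finset.mul_sum]
    apply Finset.sum_congr rfl
    intro l _
    rw [Finset.mul_sum]
    apply Finset.sum_congr rfl
    intro k _
    have h3 : σ k ≠ 0 := by
      intro h
      have := hσ k
      rw [h] at this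
      simp at this
    field_simp
  refine ⟨2 / Real.pi * ρ, by positivity, ?_⟩
  have hpi : (Real.pi : ℂ) ≠ 0 := by exact_mod_cast Real.pi_ne_zero
  rw [hI2] at hI
  have : (EE σ).coeff m = 2 / (Real.pi : ℂ) * ((Real.pi : ℂ) / 2 * (EE σ).coeff m) := by
    field_simp
  rw [this, hI]
  push_cast
  ring

end Pool.Agent.H565R2.EV
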