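import Pool.Agent.H565R2.EV.Defs

set_option autoImplicit false

open MeasureTheory Set Filter Topology

namespace Pool.Agent.H565R2.EV

private lemma fac_INT (σ : ℂ) (y : ℝ) :
    (y : ℂ) ^ 2 + σ ^ 2 = (σ - Complex.I * y) * (σ + Complex.I * y) := by
  have h : Complex.I * Complex.I = -1 := Complex.I_mul_I
  linear_combination ((y:ℂ)^2) * h

private lemma re1_INT (σ : ℂ) (y : ℝ) : (σ - Complex.I * y).re = σ.re := by simp

private lemma re2_INT (σ : ℂ) (y : ℝ) : (σ + Complex.I * y).re = σ.re := by simp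

private lemma lower_INT (σ : ℂ) (hσ : 0 < σ.re) (y : ℝ) :
    σ.re ^ 2 ≤ ‖(y : ℂ) ^ 2 + σ ^ 2‖ := by
  rw [fac_INT, norm_mul, sq]
  have h1 : σ.re ≤ ‖σ - Complex.I * y‖ := by
    rw [← re1_INT σ y]; exact Complex.re_le_norm _
  have h2 : σ.re ≤ ‖σ + Complex.I * y‖ := by
    rw [← re2_INT σ y]; exact Complex.re_le_norm _
  exact mul_le_mul h1 h2 hσ.le (norm_nonneg _)

private lemma lower2_INT (σ : ℂ) (y : ℝ) :
    y ^ 2 - ‖σ‖ ^ 2 ≤ ‖(y : ℂ) ^ 2 + σ ^ 2‖ := by
  have h := norm_sub_norm_le ((y : ℂ) ^ 2) (-(σ ^ 2))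
  rw [norm_neg, norm_pow, norm_pow, Complex.norm_real, Real.norm_eq_abs, sq_abs,
    sub_neg_eq_add] at h
  exact h

private lemma bound_INT (σ : ℂ) (hσ : 0 < σ.re) :
    ∃ K : ℝ, ∀ y : ℝ, ‖((y : ℂ) ^ 2 + σ ^ 2)⁻¹‖ ≤ K * (1 + y ^ 2)⁻¹ := by
  set R := ‖σ‖ ^ 2 with hR
  have hR0 : 0 ≤ R := by positivity
  set M := 1 + 2 * R with hM
  refine ⟨4 + (1 + M) / σ.re ^ 2, fun y => ?_⟩
  have hpos : 0 < ‖(y : ℂ) ^ 2 + σ ^ 2‖ :=
    lt_of_lt_of_le (by positivity) (lower_INT σ hσ y)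
  rw [norm_inv]
  have h1y : 0 < 1 + y ^ 2 := by positivity
  rw [← div_eq_mul_inv, inv_eq_one_div, div_le_div_iff₀ hpos h1y, one_mul]
  rcases le_or_gt M (y ^ 2) with h | h
  · have h2 := lower2_INT σ y
    have h3 : 1 + y ^ 2 ≤ 4 * ‖(y : ℂ) ^ 2 + σ ^ 2‖ := by
      rw [← hR] at h2
      nlinarith
    have h4 : 0 ≤ (1 + M) / σ.re ^ 2 * ‖(y : ℂ) ^ 2 + σ ^ 2‖ := by positivity
    nlinarith
  · have h2 := lower_INT σ hσ y
    have h3 : 1 + y ^ 2 ≤ (1 + M) / σ.re ^ 2 * ‖(y : ℂ) ^ 2 + σ ^ 2‖ := by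
      calc 1 + y ^ 2 ≤ (1 + M) := by linarith
        _ = (1 + M) / σ.re ^ 2 * σ.re ^ 2 := by field_simp
        _ ≤ _ := by
          apply mul_le_mul_of_nonneg_left h2
          positivity
    nlinarith

private lemma ne_INT (σ : ℂ) (hσ : 0 < σ.re) (y : ℝ) : (y : ℂ) ^ 2 + σ ^ 2 ≠ 0 := by
  have h := lower_INT σ hσ y
  intro h0
  rw [h0, norm_zero] at h
  have : 0 < σ.re ^ 2 := by positivity
  linarith

/-- INT -/
theorem int_sigma (σ : ℂ) (hσ : 0 < σ.re) :
    IntegrableOn (fun y : ℝ => ((y : ℂ) ^ 2 + σ ^ 2)⁻¹) (Ioi (0 : ℝ)) ∧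
      ∫ y in Ioi (0 : ℝ), ((y : ℂ) ^ 2 + σ ^ 2)⁻¹ = (Real.pi : ℂ) / (2 * σ) := by
  have hσ0 : σ ≠ 0 := by
    intro h; rw [h] at hσ; simp at hσ
  have hcont : Continuous (fun y : ℝ => ((y : ℂ) ^ 2 + σ ^ 2)⁻¹) := by
    apply Continuous.inv₀
    · fun_prop
    · exact ne_INT σ hσ
  have hint : IntegrableOn (fun y : ℝ => ((y : ℂ) ^ 2 + σ ^ 2)⁻¹) (Ioi (0 : ℝ)) := by
    obtain ⟨K, hK⟩ := bound_INT σ hσ
    apply Integrable.integrableOn
    apply Integrable.mono' (integrable_inv_one_add_sq.const_mul K)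
    · exact hcont.aestronglyMeasurable
    · exact Filter.Eventually.of_forall hK
  refine ⟨hint, ?_⟩
  set F : ℝ → ℂ := fun y => (Complex.I / (2 * σ)) *
    (Complex.log (σ - Complex.I * y) - Complex.log (σ + Complex.I * y)) with hF
  have hderiv : ∀ y ∈ Ici (0:ℝ), HasDerivAt F (((y : ℂ) ^ 2 + σ ^ 2)⁻¹) y := by
    intro y _
    have hs1 : σ - Complex.I * y ∈ Complex.slitPlane := by
      left; rw [re1_INT]; exact hσ
    have hs2 : σ + Complex.I * y ∈ Complex.slitPlane := by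
      left; rw [re2_INT]; exact hσ
    have hy : HasDerivAt (fun y : ℝ => (y : ℂ)) 1 y := Complex.ofRealCLM.hasDerivAt
    have hi : HasDerivAt (fun y : ℝ => Complex.I * (y : ℂ)) (Complex.I) y := by
      simpa using hy.const_mul Complex.I
    have d1 : HasDerivAt (fun y : ℝ => σ - Complex.I * (y:ℂ)) (-Complex.I) y := by
      simpa using hi.const_sub σ
    have d2 : HasDerivAt (fun y : ℝ => σ + Complex.I * (y:ℂ)) (Complex.I) y := by
      simpa using hi.const_add σ
    have e1 := d1.clog_real hs1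
    have e2 := d2.clog_real hs2
    have e3 := (e1.sub e2).const_mul (Complex.I / (2 * σ))
    have hv : Complex.I / (2 * σ) * (-Complex.I / (σ - Complex.I * y) -
        Complex.I / (σ + Complex.I * y)) = ((y : ℂ) ^ 2 + σ ^ 2)⁻¹ := by
      have n1 := Complex.slitPlane_ne_zero hs1
      have n2 := Complex.slitPlane_ne_zero hs2
      rw [fac_INT]
      field_simp
      have h : Complex.I * Complex.I = -1 := Complex.I_mul_I
      have h2 : Complex.I ^ 2 = -1 := Complex.I_sq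
      linear_combination (-2 * σ) * h2
    rw [hv] at e3
    exact e3
  have hlim : Tendsto F atTop (𝓝 ((Real.pi : ℂ) / (2 * σ))) := by
    have hG : Tendsto (fun y : ℝ => (Complex.I / (2 * σ)) *
        (Complex.log (σ * ((y⁻¹ : ℝ) : ℂ) - Complex.I) -
          Complex.log (σ * ((y⁻¹ : ℝ) : ℂ) + Complex.I))) atTop
        (𝓝 ((Complex.I / (2 * σ)) *
          (Complex.log (-Complex.I) - Complex.log Complex.I))) := by
      have h0 : Tendsto (fun y : ℝ => ((y⁻¹ : ℝ) : ℂ)) atTop (𝓝 0) := by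
        have := (Complex.continuous_ofReal.tendsto 0).comp tendsto_inv_atTop_zero
        rw [Complex.ofReal_zero] at this
        exact this
      have h1 : Tendsto (fun y : ℝ => σ * ((y⁻¹ : ℝ) : ℂ) - Complex.I) atTop
          (𝓝 (-Complex.I)) := by
        have := (h0.const_mul σ).sub_const Complex.I
        simpa using this
      have h2 : Tendsto (fun y : ℝ => σ * ((y⁻¹ : ℝ) : ℂ) + Complex.I) atTop
          (𝓝 (Complex.I)) := by
        have := (h0.const_mul σ).add_const Complex.I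
        simpa using this
      have s1 : -Complex.I ∈ Complex.slitPlane := by right; simp
      have s2 : Complex.I ∈ Complex.slitPlane := by right; simp
      exact ((h1.clog s1).sub (h2.clog s2)).const_mul _
    have hval : (Complex.I / (2 * σ)) *
          (Complex.log (-Complex.I) - Complex.log Complex.I) = (Real.pi : ℂ) / (2 * σ) := by
      rw [Complex.log_neg_I, Complex.log_I]
      field_simp
      have h2 : Complex.I ^ 2 = -1 := Complex.I_sq
      linear_combination (-2) * h2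
    rw [hval] at hG
    refine hG.congr' ?_
    filter_upwards [eventually_gt_atTop (0:ℝ)] with y hy
    have hyc : (y : ℂ) ≠ 0 := by exact_mod_cast hy.ne'
    have k1 : σ - Complex.I * y = (y : ℂ) * (σ * ((y⁻¹ : ℝ) : ℂ) - Complex.I) := by
      push_cast; field_simp
    have k2 : σ + Complex.I * y = (y : ℂ) * (σ * ((y⁻¹ : ℝ) : ℂ) + Complex.I) := by
      push_cast; field_simp
    have hz1 : σ * ((y⁻¹ : ℝ) : ℂ) - Complex.I ≠ 0 := by
      intro h
      have := congrArg Complex.re k1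
      rw [h, mul_zero, re1_INT] at this
      simp at this; linarith
    have hz2 : σ * ((y⁻¹ : ℝ) : ℂ) + Complex.I ≠ 0 := by
      intro h
      have := congrArg Complex.re k2
      rw [h, mul_zero, re2_INT] at this
      simp at this; linarith
    simp only [hF]
    rw [k1, k2, Complex.log_ofReal_mul hy hz1, Complex.log_ofReal_mul hy hz2]
    ring
  have := integral_Ioi_of_hasDerivAt_of_tendsto' hderiv hint hlim
  rw [this]
  simp [hF]

end Pool.Agent.H565R2.EV
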