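import Pool.Agent.H565R2.EV.Defs

set_option autoImplicit false

open Polynomial Set MeasureTheory

namespace Pool.Agent.H565R2.EV

private theorem hh_mul_MM1 (m : ℕ) (s : ℝ) :
    (X - C s) * hh m s = X ^ (m + 1) - C s ^ (m + 1) := by
  unfold hh
  rw [mul_comm, ← (Commute.all (X : ℝ[X]) (C s)).geom_sum₂_mul (m + 1)]
  congr 1
  refine Finset.sum_congr rfl fun b _ => ?_
  rw [C_pow, mul_comm]
  rfl

private theorem geo_MM1 (m : ℕ) (s : ℝ) :
    (X - C s) * ∑ a ∈ Finset.range m, (X : ℝ[X]) ^ a * C s ^ (m - a) =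
      C s * (X ^ m - C s ^ m) := by
  rw [← (Commute.all (X : ℝ[X]) (C s)).geom_sum₂_mul m]
  have : ∑ a ∈ Finset.range m, (X : ℝ[X]) ^ a * C s ^ (m - a) =
      C s * ∑ a ∈ Finset.range m, (X : ℝ[X]) ^ a * C s ^ (m - 1 - a) := by
    rw [Finset.mul_sum]
    refine Finset.sum_congr rfl fun a ha => ?_
    have h1 := Finset.mem_range.1 ha
    have h2 : m - a = (m - 1 - a) + 1 := by omega
    rw [h2, pow_succ]
    ring
  rw [this]
  ring

private theorem case1_MM1 (i m : ℕ) (s : ℝ) :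
    (X - C s) ^ 2 * (C (s ^ i) * X ^ i * ∑ a ∈ Finset.range m, X ^ a * hh (m - a - 1) s) =
      (X - C s) * ((m : ℝ[X]) * C s ^ i * X ^ (i + m)) +
        C s * (C s ^ (i + m) * X ^ i - C s ^ i * X ^ (i + m)) := by
  have h1 : (X - C s) * ∑ a ∈ Finset.range m, X ^ a * hh (m - a - 1) s =
      (m : ℝ[X]) * X ^ m - ∑ a ∈ Finset.range m, (X : ℝ[X]) ^ a * C s ^ (m - a) := by
    rw [Finset.mul_sum]
    have : ∀ a ∈ Finset.range m, (X - C s) * (X ^ a * hh (m - a - 1) s) =
        X ^ m - X ^ a * C s ^ (m - a) := by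
      intro a ha
      have h2 := Finset.mem_range.1 ha
      have h3 : m - a - 1 + 1 = m - a := by omega
      have h4 : (X : ℝ[X]) ^ m = X ^ a * X ^ (m - a) := by
        rw [← pow_add]
        congr 1
        omega
      have h5 := hh_mul_MM1 (m - a - 1) s
      rw [h3] at h5
      rw [h4]
      linear_combination (X : ℝ[X]) ^ a * h5
    rw [Finset.sum_congr rfl this, Finset.sum_sub_distrib, Finset.sum_const, Finset.card_range,
      nsmul_eq_mul]
  have h2 := geo_MM1 m s
  rw [C_pow, pow_add, pow_add]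
  linear_combination (X - C s) * C s ^ i * X ^ i * h1 - C s ^ i * X ^ i * h2

private theorem case2_MM1 (j m : ℕ) (s : ℝ) :
    (X - C s) ^ 2 * (C (s ^ j) * X ^ j * ∑ a ∈ Finset.range m, C (s ^ (m - a)) *
      (if a = 0 then 0 else hh (a - 1) s)) =
      -((X - C s) * ((m : ℝ[X]) * C s ^ (j + m) * X ^ j)) +
        C s * (C s ^ j * X ^ (j + m) - C s ^ (j + m) * X ^ j) := by
  have h1 : (X - C s) * ∑ a ∈ Finset.range m, C (s ^ (m - a)) *
      (if a = 0 then 0 else hh (a - 1) s) =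
      (∑ a ∈ Finset.range m, (X : ℝ[X]) ^ a * C s ^ (m - a)) - (m : ℝ[X]) * C s ^ m := by
    rw [Finset.mul_sum]
    have : ∀ a ∈ Finset.range m, (X - C s) * (C (s ^ (m - a)) *
        (if a = 0 then 0 else hh (a - 1) s)) =
        X ^ a * C s ^ (m - a) - C s ^ m := by
      intro a ha
      have h2 := Finset.mem_range.1 ha
      rw [C_pow]
      have h4 : (C s : ℝ[X]) ^ m = C s ^ a * C s ^ (m - a) := by
        rw [← pow_add]
        congr 1
        omega
      rw [h4]
      split_ifs with h0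
      · subst h0
        simp
      · have h3 : a - 1 + 1 = a := by omega
        have h5 := hh_mul_MM1 (a - 1) s
        rw [h3] at h5
        linear_combination (C s : ℝ[X]) ^ (m - a) * h5
    rw [Finset.sum_congr rfl this, Finset.sum_sub_distrib, Finset.sum_const, Finset.card_range,
      nsmul_eq_mul]
  have h2 := geo_MM1 m s
  rw [C_pow, pow_add, pow_add]
  linear_combination (X - C s) * C s ^ j * X ^ j * h1 + C s ^ j * X ^ j * h2

/-- MM1 -/
theorem mm_identity (i j : ℕ) (s : ℝ) :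
    (X - C s) ^ 2 * mm i j s =
      (X - C s) * (C (((j : ℝ) - i) * s ^ i) * X ^ j) +
        C s * (C (s ^ j) * X ^ i - C (s ^ i) * X ^ j) := by
  unfold mm
  split_ifs with h
  · obtain ⟨m, rfl⟩ := Nat.exists_eq_add_of_le h.le
    have h1 : i + m - i = m := by omega
    rw [h1, case1_MM1]
    have h2 : (C ((((i + m : ℕ) : ℝ) - i) * s ^ i) : ℝ[X]) = (m : ℝ[X]) * C s ^ i := by
      rw [← C_pow, ← C_eq_natCast, ← C_mul]
      congr 2
      push_cast
      ring
    rw [h2, C_pow, C_pow]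
  · obtain ⟨m, rfl⟩ := Nat.exists_eq_add_of_le (not_lt.1 h)
    have h1 : j + m - j = m := by omega
    rw [h1, case2_MM1]
    have h2 : (C (((j : ℝ) - ((j + m : ℕ) : ℝ)) * s ^ (j + m)) : ℝ[X]) =
        -((m : ℝ[X]) * C s ^ (j + m)) := by
      rw [← C_pow, ← C_eq_natCast, ← C_mul, ← C_neg]
      congr 1
      push_cast
      ring
    rw [h2, C_pow, C_pow]
    ring

end Pool.Agent.H565R2.EV
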