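import Pool.Agent.H565R2.EV.Defs

set_option autoImplicit false

open Polynomial

namespace Pool.Agent.H565R2.EV

private theorem mul_MM2 {p q : ℝ[X]} (hp : ∀ m, 0 ≤ p.coeff m) (hq : ∀ m, 0 ≤ q.coeff m) :
    ∀ m, 0 ≤ (p * q).coeff m := by
  intro m
  rw [coeff_mul]
  exact Finset.sum_nonneg (fun x _ => mul_nonneg (hp _) (hq _))

private theorem sum_MM2 {ι : Type*} (s : Finset ι) (f : ι → ℝ[X]) (h : ∀ i ∈ s, ∀ m, 0 ≤ (f i).coeff m) :
    ∀ m, 0 ≤ (∑ i ∈ s, f i).coeff m := by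
  intro m
  rw [finsetSum_coeff]
  exact Finset.sum_nonneg (fun i hi => h i hi m)

private theorem C_MM2 {a : ℝ} (ha : 0 ≤ a) : ∀ m, 0 ≤ (C a : ℝ[X]).coeff m := by
  intro m
  rw [coeff_C]
  split_ifs
  · exact ha
  · exact le_rfl

private theorem X_MM2 (a : ℕ) : ∀ m, 0 ≤ (X ^ a : ℝ[X]).coeff m := by
  intro m
  rw [coeff_X_pow]
  split_ifs
  · exact zero_le_one
  · exact le_rfl

private theorem hh_MM2 (k : ℕ) {s : ℝ} (hs : 0 < s) : ∀ m, 0 ≤ (hh k s).coeff m := by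
  unfold hh
  exact sum_MM2 _ _ (fun b _ => mul_MM2 (C_MM2 (by positivity)) (X_MM2 b))

/-- MM2 -/
theorem mm_nonneg (i j : ℕ) (s : ℝ) (hs : 0 < s) (m : ℕ) : 0 ≤ (mm i j s).coeff m := by
  revert m
  unfold mm
  split_ifs
  · refine mul_MM2 (mul_MM2 (C_MM2 (by positivity)) (X_MM2 i)) (sum_MM2 _ _ (fun a _ => ?_))
    exact mul_MM2 (X_MM2 a) (hh_MM2 _ hs)
  · refine mul_MM2 (mul_MM2 (C_MM2 (by positivity)) (X_MM2 j)) (sum_MM2 _ _ (fun a _ => ?_))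
    refine mul_MM2 (C_MM2 (by positivity)) ?_
    split_ifs
    · intro m
      simp
    · exact hh_MM2 _ hs

end Pool.Agent.H565R2.EV
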