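import Pool.Agent.H565R2.EV.Defs

/-! Task MM3 (helper265). -/

set_option autoImplicit false

open Polynomial

namespace Pool.Agent.H565R2.EV

theorem hh_coeff_MM3 (k : ℕ) (s : ℝ) (m : ℕ) :
    (hh k s).coeff m = if m < k + 1 then s ^ (k - m) else 0 := by
  unfold hh
  rw [finsetSum_coeff]
  simp only [coeff_C_mul, coeff_X_pow, mul_ite, mul_one, mul_zero]
  rw [Finset.sum_ite_eq]
  simp only [Finset.mem_range]

theorem mm_pos (n : ℕ) (s : ℝ) (hs : 0 < s) (m : ℕ) (hm : m + 2 ≤ n) :
    0 < (mm n 0 s).coeff m := by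
  have h1 : (mm n 0 s).coeff m = ∑ a ∈ Finset.range n,
      s ^ (n - a) * (if a = 0 then 0 else (hh (a - 1) s).coeff m) := by
    unfold mm
    rw [if_neg (Nat.not_lt_zero n), pow_zero, pow_zero, map_one, one_mul, one_mul,
      finsetSum_coeff, Nat.sub_zero]
    refine Finset.sum_congr rfl fun a _ => ?_
    rw [coeff_C_mul]
    split_ifs
    · rw [coeff_zero]
    · rfl
  rw [h1]
  refine Finset.sum_pos' (fun a _ => ?_) ⟨n - 1, Finset.mem_range.2 (by omega), ?_⟩
  · refine mul_nonneg (by positivity) ?_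
    split_ifs
    · exact le_rfl
    · rw [hh_coeff_MM3]
      split_ifs <;> positivity
  · rw [if_neg (by omega), hh_coeff_MM3, if_pos (by omega)]
    positivity

end Pool.Agent.H565R2.EV
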