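import Pool.Agent.H565R2.EV.Defs

set_option autoImplicit false

open Polynomial Set MeasureTheory

namespace Pool.Agent.H565R2.EV

/-- POS -/
theorem pos_int (f : ℝ → ℂ) (g : ℝ → ℝ) (hf : IntegrableOn f (Ioi (0 : ℝ)))
    (hfg : ∀ y > (0 : ℝ), f y = (g y : ℂ)) (hg : ∀ y > (0 : ℝ), 0 < g y) :
    ∃ ρ : ℝ, 0 < ρ ∧ ∫ y in Ioi (0 : ℝ), f y = (ρ : ℂ) := by
  have hgi : IntegrableOn g (Ioi (0 : ℝ)) := by
    have h1 : IntegrableOn (fun y => (f y).re) (Ioi (0 : ℝ)) := hf.re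
    refine h1.congr_fun (fun y hy => ?_) measurableSet_Ioi
    show (f y).re = g y
    rw [hfg y hy, Complex.ofReal_re]
  refine ⟨∫ y in Ioi (0 : ℝ), g y, ?_, ?_⟩
  · rw [setIntegral_pos_iff_support_of_nonneg_ae]
    · have h2 : Function.support g ∩ Ioi (0 : ℝ) = Ioi 0 := by
        ext y
        simp only [mem_inter_iff, Function.mem_support, mem_Ioi, and_iff_right_iff_imp]
        exact fun hy => (hg y hy).ne'
      rw [h2, Real.volume_Ioi]
      exact ENNReal.zero_lt_top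
    · filter_upwards [ae_restrict_mem measurableSet_Ioi] with y hy
      exact (hg y hy).le
    · exact hgi
  · have h3 : ∫ y in Ioi (0 : ℝ), f y = ∫ y in Ioi (0 : ℝ), (g y : ℂ) :=
      setIntegral_congr_fun measurableSet_Ioi fun y hy => hfg y hy
    rw [h3]
    exact integral_ofReal (𝕜 := ℂ)

end Pool.Agent.H565R2.EV
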