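import Pool.Agent.H565R2.EV.Defs

set_option autoImplicit false

open Polynomial Set MeasureTheory

namespace Pool.Agent.H565R2.EV

private theorem map_rot0_SYM0 {n : ℕ} (r a : Fin n → ℝ) :
    (rot0 r a).map (algebraMap ℝ ℂ) =
      ((Finset.univ.val.map (fun k => wz r a k) +
        (Finset.univ.val.map (fun k => wz r a k)).map (starRingEnd ℂ)).map
          (fun z => X - C z)).prod := by
  rw [Multiset.map_add, Multiset.prod_add, Multiset.map_map, Multiset.map_map, Multiset.map_map]
  change _ = (∏ k, (X - C (wz r a k))) * ∏ k, (X - C ((starRingEnd ℂ) (wz r a k)))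
  rw [← Finset.prod_mul_distrib, rot0, Polynomial.map_prod]
  refine Finset.prod_congr rfl fun k _ => ?_
  have h1 : wz r a k + (starRingEnd ℂ) (wz r a k) = ((2 * r k * Real.cos (a k) : ℝ) : ℂ) := by
    rw [Complex.add_conj]
    have : (wz r a k).re = r k * Real.cos (a k) := by
      rw [wz, Complex.re_ofReal_mul, Complex.exp_ofReal_mul_I_re]
    rw [this]
    push_cast; ring
  have h2 : wz r a k * (starRingEnd ℂ) (wz r a k) = ((r k ^ 2 : ℝ) : ℂ) := by
    rw [Complex.mul_conj, wz, Complex.normSq_eq_norm_sq, norm_mul, Complex.norm_exp_ofReal_mul_I,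
      mul_one, Complex.norm_real, Real.norm_eq_abs, sq_abs]
  have h3 : (X - C (wz r a k)) * (X - C ((starRingEnd ℂ) (wz r a k))) =
      X ^ 2 - C (wz r a k + (starRingEnd ℂ) (wz r a k)) * X +
        C (wz r a k * (starRingEnd ℂ) (wz r a k)) := by
    rw [C_add, C_mul]; ring
  rw [h3, h1, h2]
  simp [Polynomial.map_sub, Polynomial.map_add, Polynomial.map_mul]

private theorem comp_neg_SYM0 (p : ℝ[X]) (h : ∀ j, Odd j → p.coeff j = 0) :
    p.comp (-X) = p := by
  have hX : (-X : ℝ[X]) = C (-1) * X := by simp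
  ext j
  rw [hX, comp_C_mul_X_coeff]
  rcases Nat.even_or_odd j with hj | hj
  · rw [hj.neg_one_pow, mul_one]
  · rw [h j hj, zero_mul]

/-- SYM0: if the polynomial is even, the upper zeros are symmetric under `w -> - conj w`. -/
theorem sym0 {n : ℕ} (r a : Fin n → ℝ) (hr : ∀ k, 0 < r k)
    (ha : ∀ k, 0 < a k ∧ a k < Real.pi)
    (hodd : ∀ j, Odd j → (rot0 r a).coeff j = 0) :
    Finset.univ.val.map (fun k => wz r a k) =
      Finset.univ.val.map (fun k => -(starRingEnd ℂ) (wz r a k)) := by
  classical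
  set A : Multiset ℂ := Finset.univ.val.map (fun k => wz r a k) with hA
  have him : ∀ z ∈ A, 0 < z.im := by
    intro z hz
    rw [hA, Multiset.mem_map] at hz
    obtain ⟨k, _, rfl⟩ := hz
    rw [wz, Complex.im_ofReal_mul, Complex.exp_ofReal_mul_I_im]
    exact mul_pos (hr k) (Real.sin_pos_of_pos_of_lt_pi (ha k).1 (ha k).2)
  have hroots : ((rot0 r a).map (algebraMap ℝ ℂ)).roots = A + A.map (starRingEnd ℂ) := by
    rw [map_rot0_SYM0, roots_multiset_prod_X_sub_C]
  have hneg : (A + A.map (starRingEnd ℂ)).map (fun z => -z) = A + A.map (starRingEnd ℂ) := by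
    rw [← hroots, ← roots_comp_neg_X]
    have h1 : ((rot0 r a).map (algebraMap ℝ ℂ)).comp (-X) =
        ((rot0 r a).comp (-X)).map (algebraMap ℝ ℂ) := by
      rw [Polynomial.map_comp, Polynomial.map_neg, Polynomial.map_X]
    rw [h1, comp_neg_SYM0 _ hodd]
  have hf := congrArg (Multiset.filter (fun z : ℂ => 0 < z.im)) hneg
  rw [Multiset.map_add, Multiset.filter_add, Multiset.filter_add] at hf
  have e1 : Multiset.filter (fun z : ℂ => 0 < z.im) (A.map (fun z => -z)) = 0 := by
    rw [Multiset.filter_eq_nil]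
    intro z hz
    obtain ⟨w, hw, rfl⟩ := Multiset.mem_map.1 hz
    have := him w hw
    simp only [Complex.neg_im, not_lt]
    linarith
  have e2 : Multiset.filter (fun z : ℂ => 0 < z.im) ((A.map (starRingEnd ℂ)).map (fun z => -z)) =
      (A.map (starRingEnd ℂ)).map (fun z => -z) := by
    rw [Multiset.filter_eq_self]
    intro z hz
    obtain ⟨w, hw, rfl⟩ := Multiset.mem_map.1 hz
    obtain ⟨v, hv, rfl⟩ := Multiset.mem_map.1 hw
    have := him v hv
    simpa using this
  have e3 : Multiset.filter (fun z : ℂ => 0 < z.im) A = A := by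
    rw [Multiset.filter_eq_self]; exact him
  have e4 : Multiset.filter (fun z : ℂ => 0 < z.im) (A.map (starRingEnd ℂ)) = 0 := by
    rw [Multiset.filter_eq_nil]
    intro z hz
    obtain ⟨w, hw, rfl⟩ := Multiset.mem_map.1 hz
    have := him w hw
    simp only [Complex.conj_im, not_lt]
    linarith
  rw [e1, e2, e3, e4, zero_add, add_zero, Multiset.map_map, hA, Multiset.map_map] at hf
  exact hf.symm

end Pool.Agent.H565R2.EV
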