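import Mathlib
import Pool.Agent.H565R2.EV.Defs

set_option autoImplicit false

open Polynomial

namespace Pool.Agent.H565R2.EV

private theorem fac_SYM1 {n : ℕ} (r a : Fin n → ℝ) (k : Fin n) (x : ℂ) :
    x ^ 2 - ((2 * r k * Real.cos (a k) : ℝ) : ℂ) * x + ((r k ^ 2 : ℝ) : ℂ) =
      (x - wz r a k) * (x - (starRingEnd ℂ) (wz r a k)) := by
  have h1 : wz r a k + (starRingEnd ℂ) (wz r a k) = ((2 * r k * Real.cos (a k) : ℝ) : ℂ) := by
    rw [Complex.add_conj]
    congr 1
    unfold wz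
    rw [Complex.re_ofReal_mul, Complex.exp_ofReal_mul_I_re]
    ring
  have h2 : wz r a k * (starRingEnd ℂ) (wz r a k) = ((r k ^ 2 : ℝ) : ℂ) := by
    rw [Complex.mul_conj]
    congr 1
    unfold wz
    rw [Complex.normSq_mul, Complex.normSq_ofReal, Complex.normSq_eq_norm_sq,
      Complex.norm_exp_ofReal_mul_I]
    ring
  rw [← h1, ← h2]
  ring

private theorem dk_SYM1 {n : ℕ} (r a : Fin n → ℝ) (k : Fin n) :
    ((2 * r k * Real.sin (a k) : ℝ) : ℂ) =
      -Complex.I * (wz r a k - (starRingEnd ℂ) (wz r a k)) := by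
  have h : wz r a k - (starRingEnd ℂ) (wz r a k) =
      ((2 * r k * Real.sin (a k) : ℝ) : ℂ) * Complex.I := by
    rw [Complex.sub_conj]
    congr 2
    unfold wz
    rw [Complex.im_ofReal_mul, Complex.exp_ofReal_mul_I_im]
    ring
  rw [h]
  have : -Complex.I * (((2 * r k * Real.sin (a k) : ℝ) : ℂ) * Complex.I) =
      -(Complex.I * Complex.I) * ((2 * r k * Real.sin (a k) : ℝ) : ℂ) := by ring
  rw [this, Complex.I_mul_I]
  ring

private theorem ck_SYM1 {n : ℕ} (r a : Fin n → ℝ) (k : Fin n) :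
    ((2 * r k * Real.cos (a k) : ℝ) : ℂ) = wz r a k + (starRingEnd ℂ) (wz r a k) := by
  rw [Complex.add_conj]
  congr 1
  unfold wz
  rw [Complex.re_ofReal_mul, Complex.exp_ofReal_mul_I_re]
  ring

private theorem sum_SYM1 {n : ℕ} {w : Fin n → ℂ}
    (hs : Finset.univ.val.map (fun k => w k) =
      Finset.univ.val.map (fun k => -(starRingEnd ℂ) (w k))) (g : ℂ → ℂ) :
    ∑ k, g ((starRingEnd ℂ) (w k)) = ∑ k, g (-(w k)) := by
  have h := congrArg (fun M : Multiset ℂ => (M.map (fun z => g (-z))).sum) hs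
  simp only [Multiset.map_map, Function.comp_def, neg_neg] at h
  exact h.symm

private theorem prod_SYM1 {n : ℕ} {w : Fin n → ℂ}
    (hs : Finset.univ.val.map (fun k => w k) =
      Finset.univ.val.map (fun k => -(starRingEnd ℂ) (w k))) (g : ℂ → ℂ) :
    ∏ k, g ((starRingEnd ℂ) (w k)) = ∏ k, g (-(w k)) := by
  have h := congrArg (fun M : Multiset ℂ => (M.map (fun z => g (-z))).prod) hs
  simp only [Multiset.map_map, Function.comp_def, neg_neg] at h
  exact h.symm

private theorem sq_SYM1 {n : ℕ} (r a : Fin n → ℝ) (k : Fin n) (x : ℂ) :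
    x ^ 2 + sg r a k ^ 2 = (x - wz r a k) * (x + wz r a k) := by
  unfold sg
  rw [mul_pow, neg_sq, Complex.I_sq]
  ring

private theorem P_SYM1 {n : ℕ} (r a : Fin n → ℝ)
    (hs : Finset.univ.val.map (fun k => wz r a k) =
      Finset.univ.val.map (fun k => -(starRingEnd ℂ) (wz r a k))) (x : ℂ) :
    ∏ k, ((x - wz r a k) * (x - (starRingEnd ℂ) (wz r a k))) = ∏ k, (x ^ 2 + sg r a k ^ 2) := by
  rw [Finset.prod_mul_distrib, prod_SYM1 hs (fun z => x - z), ← Finset.prod_mul_distrib]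
  refine Finset.prod_congr rfl (fun k _ => ?_)
  rw [sq_SYM1]
  ring

private theorem erase_SYM1 {n : ℕ} (f : Fin n → ℂ) (hf : ∀ k, f k ≠ 0) (k : Fin n) :
    ∏ l ∈ Finset.univ.erase k, f l = (∏ l, f l) / f k := by
  rw [eq_div_iff (hf k), mul_comm, Finset.mul_prod_erase _ _ (Finset.mem_univ k)]

private theorem exp_SYM1 {n : ℕ} (r a : Fin n → ℝ)
    (hs : Finset.univ.val.map (fun k => wz r a k) =
      Finset.univ.val.map (fun k => -(starRingEnd ℂ) (wz r a k))) :
    (D1 r a).map Complex.ofRealHom = C 2 * X * expand ℂ 2 (WW (sg r a)) := by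
  apply Polynomial.eq_of_infinite_eval_eq
  have hfin : (Set.range (wz r a) ∪ Set.range (fun k => (starRingEnd ℂ) (wz r a k)) ∪
      Set.range (fun k => -(wz r a k))).Finite :=
    ((Set.finite_range _).union (Set.finite_range _)).union (Set.finite_range _)
  refine hfin.infinite_compl.mono ?_
  intro x hx
  simp only [Set.mem_compl_iff, Set.mem_union, Set.mem_range, not_or, not_exists] at hx
  obtain ⟨⟨hx1, hx2⟩, hx3⟩ := hx
  have n1 : ∀ k, x - wz r a k ≠ 0 := fun k h => hx1 k (sub_eq_zero.mp h).symm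
  have n2 : ∀ k, x - (starRingEnd ℂ) (wz r a k) ≠ 0 := fun k h => hx2 k (sub_eq_zero.mp h).symm
  have n3 : ∀ k, x + wz r a k ≠ 0 := fun k h => hx3 k (by linear_combination -h)
  have n4 : ∀ k, x ^ 2 + sg r a k ^ 2 ≠ 0 := fun k => by
    rw [sq_SYM1]; exact mul_ne_zero (n1 k) (n3 k)
  show eval x _ = eval x _
  have eL : eval x ((D1 r a).map Complex.ofRealHom) =
      ∑ k, ((2 * r k * Real.sin (a k) : ℝ) : ℂ) * x * ∏ l ∈ Finset.univ.erase k,
        ((x - wz r a l) * (x - (starRingEnd ℂ) (wz r a l))) := by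
    simp only [D1, Polynomial.map_sum, Polynomial.map_prod, Polynomial.map_sub,
      Polynomial.map_add, Polynomial.map_pow, Polynomial.map_mul, Polynomial.map_C,
      Polynomial.map_X, eval_finset_sum, eval_prod, eval_add, eval_sub, eval_mul, eval_pow,
      eval_X, eval_C, Complex.ofRealHom_eq_coe]
    refine Finset.sum_congr rfl (fun k _ => ?_)
    congr 1
    exact Finset.prod_congr rfl (fun l _ => fac_SYM1 r a l x)
  have eR : eval x (C 2 * X * expand ℂ 2 (WW (sg r a))) =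
      2 * x * ∑ k, sg r a k * ∏ l ∈ Finset.univ.erase k, (x ^ 2 + sg r a l ^ 2) := by
    rw [eval_mul, expand_eval]
    simp only [WW, QE, eval_finset_sum, eval_prod, eval_add, eval_mul, eval_X, eval_C]
  rw [eL, eR]
  simp_rw [erase_SYM1 (fun l => (x - wz r a l) * (x - (starRingEnd ℂ) (wz r a l)))
    (fun l => mul_ne_zero (n1 l) (n2 l)), erase_SYM1 (fun l => x ^ 2 + sg r a l ^ 2) n4]
  rw [P_SYM1 r a hs x]
  set P := ∏ k, (x ^ 2 + sg r a k ^ 2) with hP
  have t1 : ∀ k, ((2 * r k * Real.sin (a k) : ℝ) : ℂ) * x *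
      (P / ((x - wz r a k) * (x - (starRingEnd ℂ) (wz r a k)))) =
      P * (-Complex.I * x) * ((x - wz r a k)⁻¹ - (x - (starRingEnd ℂ) (wz r a k))⁻¹) := by
    intro k
    rw [dk_SYM1]
    have h1 := n1 k
    have h2 := n2 k
    field_simp
    ring
  have t2 : ∀ k, 2 * x * (sg r a k * (P / (x ^ 2 + sg r a k ^ 2))) =
      P * (-Complex.I * x) * ((x - wz r a k)⁻¹ - (x - -(wz r a k))⁻¹) := by
    intro k
    rw [sq_SYM1, sub_neg_eq_add]
    unfold sg
    have h1 := n1 k
    have h2 := n3 k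
    field_simp
    ring
  rw [Finset.mul_sum]
  simp_rw [t1, t2]
  rw [← Finset.mul_sum, ← Finset.mul_sum, Finset.sum_sub_distrib, Finset.sum_sub_distrib,
    sum_SYM1 hs (fun z => (x - z)⁻¹)]

/-- SYM1 -/
theorem sym1 {n : ℕ} (r a : Fin n → ℝ)
    (hs : Finset.univ.val.map (fun k => wz r a k) =
      Finset.univ.val.map (fun k => -(starRingEnd ℂ) (wz r a k))) :
    (∀ m, ((D1 r a).coeff (2 * m + 1) : ℂ) = 2 * (WW (sg r a)).coeff m) ∧
      ∀ m, (D1 r a).coeff (2 * m) = 0 := by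
  have h := exp_SYM1 r a hs
  have hc : ∀ j, ((D1 r a).coeff j : ℂ) = (C 2 * X * expand ℂ 2 (WW (sg r a))).coeff j := by
    intro j
    rw [← h, coeff_map]; rfl
  constructor
  · intro m
    rw [hc, mul_assoc, coeff_C_mul, coeff_X_mul, mul_comm 2 m, coeff_expand_mul (by norm_num)]
  · intro m
    have h2 : ((D1 r a).coeff (2 * m) : ℂ) = 0 := by
      rw [hc, mul_assoc, coeff_C_mul]
      cases m with
      | zero => simp
      | succ m =>
        rw [show 2 * (m + 1) = (2 * m + 1) + 1 by ring, coeff_X_mul,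
          coeff_expand (by norm_num), if_neg (by omega), mul_zero]
    exact_mod_cast h2

end Pool.Agent.H565R2.EV
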