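import Mathlib
import Pool.Agent.H565R2.EV.Defs

set_option autoImplicit false

open Polynomial

namespace Pool.Agent.H565R2.EV

private theorem fac_SYM2 {n : ℕ} (r a : Fin n → ℝ) (k : Fin n) (x : ℂ) :
    x ^ 2 - ((2 * r k * Real.cos (a k) : ℝ) : ℂ) * x + ((r k ^ 2 : ℝ) : ℂ) =
      (x - wz r a k) * (x - (starRingEnd ℂ) (wz r a k)) := by
  have h1 : wz r a k + (starRingEnd ℂ) (wz r a k) = ((2 * r k * Real.cos (a k) : ℝ) : ℂ) := by
    rw [Complex.add_conj]
    congr 1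
    unfold wz
    rw [Complex.re_ofReal_mul, Complex.exp_ofReal_mul_I_re]
    ring
  have h2 : wz r a k * (starRingEnd ℂ) (wz r a k) = ((r k ^ 2 : ℝ) : ℂ) := by
    rw [Complex.mul_conj]
    congr 1
    unfold wz
    rw [Complex.normSq_mul, Complex.normSq_ofReal, Complex.normSq_eq_norm_sq,
      Complex.norm_exp_ofReal_mul_I]
    ring
  rw [← h1, ← h2]
  ring

private theorem dk_SYM2 {n : ℕ} (r a : Fin n → ℝ) (k : Fin n) :
    ((2 * r k * Real.sin (a k) : ℝ) : ℂ) =
      -Complex.I * (wz r a k - (starRingEnd ℂ) (wz r a k)) := by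
  have h : wz r a k - (starRingEnd ℂ) (wz r a k) =
      ((2 * r k * Real.sin (a k) : ℝ) : ℂ) * Complex.I := by
    rw [Complex.sub_conj]
    congr 2
    unfold wz
    rw [Complex.im_ofReal_mul, Complex.exp_ofReal_mul_I_im]
    ring
  rw [h]
  have : -Complex.I * (((2 * r k * Real.sin (a k) : ℝ) : ℂ) * Complex.I) =
      -(Complex.I * Complex.I) * ((2 * r k * Real.sin (a k) : ℝ) : ℂ) := by ring
  rw [this, Complex.I_mul_I]
  ring

private theorem ck_SYM2 {n : ℕ} (r a : Fin n → ℝ) (k : Fin n) :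
    ((2 * r k * Real.cos (a k) : ℝ) : ℂ) = wz r a k + (starRingEnd ℂ) (wz r a k) := by
  rw [Complex.add_conj]
  congr 1
  unfold wz
  rw [Complex.re_ofReal_mul, Complex.exp_ofReal_mul_I_re]
  ring

private theorem sum_SYM2 {n : ℕ} {w : Fin n → ℂ}
    (hs : Finset.univ.val.map (fun k => w k) =
      Finset.univ.val.map (fun k => -(starRingEnd ℂ) (w k))) (g : ℂ → ℂ) :
    ∑ k, g ((starRingEnd ℂ) (w k)) = ∑ k, g (-(w k)) := by
  have h := congrArg (fun M : Multiset ℂ => (M.map (fun z => g (-z))).sum) hs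
  simp only [Multiset.map_map, Function.comp_def, neg_neg] at h
  exact h.symm

private theorem prod_SYM2 {n : ℕ} {w : Fin n → ℂ}
    (hs : Finset.univ.val.map (fun k => w k) =
      Finset.univ.val.map (fun k => -(starRingEnd ℂ) (w k))) (g : ℂ → ℂ) :
    ∏ k, g ((starRingEnd ℂ) (w k)) = ∏ k, g (-(w k)) := by
  have h := congrArg (fun M : Multiset ℂ => (M.map (fun z => g (-z))).prod) hs
  simp only [Multiset.map_map, Function.comp_def, neg_neg] at h
  exact h.symm

private theorem sq_SYM2 {n : ℕ} (r a : Fin n → ℝ) (k : Fin n) (x : ℂ) :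
    x ^ 2 + sg r a k ^ 2 = (x - wz r a k) * (x + wz r a k) := by
  unfold sg
  rw [mul_pow, neg_sq, Complex.I_sq]
  ring

private theorem P_SYM2 {n : ℕ} (r a : Fin n → ℝ)
    (hs : Finset.univ.val.map (fun k => wz r a k) =
      Finset.univ.val.map (fun k => -(starRingEnd ℂ) (wz r a k))) (x : ℂ) :
    ∏ k, ((x - wz r a k) * (x - (starRingEnd ℂ) (wz r a k))) = ∏ k, (x ^ 2 + sg r a k ^ 2) := by
  rw [Finset.prod_mul_distrib, prod_SYM2 hs (fun z => x - z), ← Finset.prod_mul_distrib]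
  refine Finset.prod_congr rfl (fun k _ => ?_)
  rw [sq_SYM2]
  ring

private theorem erase_SYM2 {n : ℕ} (f : Fin n → ℂ) (hf : ∀ k, f k ≠ 0) (k : Fin n) :
    ∏ l ∈ Finset.univ.erase k, f l = (∏ l, f l) / f k := by
  rw [eq_div_iff (hf k), mul_comm, Finset.mul_prod_erase _ _ (Finset.mem_univ k)]

private theorem erase2_SYM2 {n : ℕ} (f : Fin n → ℂ) (hf : ∀ k, f k ≠ 0) (k l : Fin n)
    (hkl : l ∈ Finset.univ.erase k) :
    ∏ i ∈ (Finset.univ.erase k).erase l, f i = (∏ i, f i) / (f k * f l) := by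
  rw [eq_div_iff (mul_ne_zero (hf k) (hf l))]
  have h1 := Finset.mul_prod_erase (Finset.univ.erase k) f hkl
  have h2 := Finset.mul_prod_erase Finset.univ f (Finset.mem_univ k)
  rw [← h2, ← h1]
  ring

private theorem dbl_SYM2 {n : ℕ} (F : Fin n → ℂ) :
    ∑ k, ∑ l ∈ Finset.univ.erase k, F k * F l = (∑ k, F k) ^ 2 - ∑ k, F k ^ 2 := by
  have h : ∀ k, ∑ l ∈ Finset.univ.erase k, F k * F l = F k * (∑ l, F l) - F k ^ 2 := by
    intro k
    rw [← Finset.mul_sum, ← Finset.add_sum_erase Finset.univ F (Finset.mem_univ k)]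
    ring
  simp_rw [h]
  rw [Finset.sum_sub_distrib, ← Finset.sum_mul]
  ring

private theorem exp_SYM2 {n : ℕ} (r a : Fin n → ℝ)
    (hs : Finset.univ.val.map (fun k => wz r a k) =
      Finset.univ.val.map (fun k => -(starRingEnd ℂ) (wz r a k))) :
    (D2 r a).map Complex.ofRealHom = C 4 * X ^ 2 * expand ℂ 2 (EE (sg r a)) := by
  apply Polynomial.eq_of_infinite_eval_eq
  have hfin : (Set.range (wz r a) ∪ Set.range (fun k => (starRingEnd ℂ) (wz r a k)) ∪
      Set.range (fun k => -(wz r a k))).Finite :=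
    ((Set.finite_range _).union (Set.finite_range _)).union (Set.finite_range _)
  refine hfin.infinite_compl.mono ?_
  intro x hx
  simp only [Set.mem_compl_iff, Set.mem_union, Set.mem_range, not_or, not_exists] at hx
  obtain ⟨⟨hx1, hx2⟩, hx3⟩ := hx
  have n1 : ∀ k, x - wz r a k ≠ 0 := fun k h => hx1 k (sub_eq_zero.mp h).symm
  have n2 : ∀ k, x - (starRingEnd ℂ) (wz r a k) ≠ 0 := fun k h => hx2 k (sub_eq_zero.mp h).symm
  have n3 : ∀ k, x + wz r a k ≠ 0 := fun k h => hx3 k (by linear_combination -h)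
  have n4 : ∀ k, x ^ 2 + sg r a k ^ 2 ≠ 0 := fun k => by
    rw [sq_SYM2]; exact mul_ne_zero (n1 k) (n3 k)
  show eval x _ = eval x _
  have eL : eval x ((D2 r a).map Complex.ofRealHom) =
      ∑ k, ((2 * r k * Real.cos (a k) : ℝ) : ℂ) * x * ∏ l ∈ Finset.univ.erase k,
        ((x - wz r a l) * (x - (starRingEnd ℂ) (wz r a l))) +
      ∑ k, ∑ l ∈ Finset.univ.erase k,
        ((4 * (r k * Real.sin (a k)) * (r l * Real.sin (a l)) : ℝ) : ℂ) * x ^ 2 *
        ∏ i ∈ (Finset.univ.erase k).erase l,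
          ((x - wz r a i) * (x - (starRingEnd ℂ) (wz r a i))) := by
    simp only [D2, Polynomial.map_sum, Polynomial.map_prod, Polynomial.map_sub,
      Polynomial.map_add, Polynomial.map_pow, Polynomial.map_mul, Polynomial.map_C,
      Polynomial.map_X, eval_finsetSum, eval_prod, eval_add, eval_sub, eval_mul, eval_pow,
      eval_X, eval_C, Complex.ofRealHom_eq_coe]
    congr 1
    · refine Finset.sum_congr rfl (fun k _ => ?_)
      congr 1
      exact Finset.prod_congr rfl (fun l _ => fac_SYM2 r a l x)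
    · refine Finset.sum_congr rfl (fun k _ => Finset.sum_congr rfl (fun l _ => ?_))
      congr 1
      exact Finset.prod_congr rfl (fun i _ => fac_SYM2 r a i x)
  have eR : eval x (C 4 * X ^ 2 * expand ℂ 2 (EE (sg r a))) =
      4 * x ^ 2 * ∑ l, ∑ k ∈ Finset.univ.erase l, sg r a l * sg r a k *
        ∏ i ∈ (Finset.univ.erase l).erase k, (x ^ 2 + sg r a i ^ 2) := by
    rw [eval_mul, expand_eval]
    simp only [EE, QEE, eval_finsetSum, eval_prod, eval_add, eval_mul, eval_pow, eval_X, eval_C]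
  rw [eL, eR]
  simp_rw [erase_SYM2 (fun l => (x - wz r a l) * (x - (starRingEnd ℂ) (wz r a l)))
    (fun l => mul_ne_zero (n1 l) (n2 l))]
  have q1 : ∑ k, ∑ l ∈ Finset.univ.erase k,
        ((4 * (r k * Real.sin (a k)) * (r l * Real.sin (a l)) : ℝ) : ℂ) * x ^ 2 *
        ∏ i ∈ (Finset.univ.erase k).erase l,
          ((x - wz r a i) * (x - (starRingEnd ℂ) (wz r a i))) =
      (∏ k, (x ^ 2 + sg r a k ^ 2)) * ∑ k, ∑ l ∈ Finset.univ.erase k,
        ((-Complex.I * x) * ((x - wz r a k)⁻¹ - (x - (starRingEnd ℂ) (wz r a k))⁻¹)) *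
        ((-Complex.I * x) * ((x - wz r a l)⁻¹ - (x - (starRingEnd ℂ) (wz r a l))⁻¹)) := by
    rw [Finset.mul_sum]
    refine Finset.sum_congr rfl (fun k _ => ?_)
    rw [Finset.mul_sum]
    refine Finset.sum_congr rfl (fun l hl => ?_)
    rw [erase2_SYM2 (fun l => (x - wz r a l) * (x - (starRingEnd ℂ) (wz r a l)))
      (fun l => mul_ne_zero (n1 l) (n2 l)) k l hl, P_SYM2 r a hs x]
    have e : ((4 * (r k * Real.sin (a k)) * (r l * Real.sin (a l)) : ℝ) : ℂ) =
        ((2 * r k * Real.sin (a k) : ℝ) : ℂ) * ((2 * r l * Real.sin (a l) : ℝ) : ℂ) := by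
      push_cast; ring
    rw [e, dk_SYM2, dk_SYM2]
    have h1 := n1 k
    have h2 := n2 k
    have h3 := n1 l
    have h4 := n2 l
    field_simp
    ring
  have q2 : ∑ l, ∑ k ∈ Finset.univ.erase l, sg r a l * sg r a k *
        ∏ i ∈ (Finset.univ.erase l).erase k, (x ^ 2 + sg r a i ^ 2) =
      (∏ k, (x ^ 2 + sg r a k ^ 2)) * ∑ l, ∑ k ∈ Finset.univ.erase l,
        (sg r a l / (x ^ 2 + sg r a l ^ 2)) * (sg r a k / (x ^ 2 + sg r a k ^ 2)) := by
    rw [Finset.mul_sum]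
    refine Finset.sum_congr rfl (fun l _ => ?_)
    rw [Finset.mul_sum]
    refine Finset.sum_congr rfl (fun k hk => ?_)
    rw [erase2_SYM2 (fun l => x ^ 2 + sg r a l ^ 2) n4 l k hk]
    have h1 := n4 k
    have h2 := n4 l
    field_simp
  rw [q1, q2, P_SYM2 r a hs x, dbl_SYM2, dbl_SYM2]
  set P := ∏ k, (x ^ 2 + sg r a k ^ 2) with hP
  -- the sums of F
  have s1 : ∑ k, (-Complex.I * x) * ((x - wz r a k)⁻¹ - (x - (starRingEnd ℂ) (wz r a k))⁻¹) =
      2 * x * ∑ k, sg r a k / (x ^ 2 + sg r a k ^ 2) := by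
    rw [← Finset.mul_sum, Finset.sum_sub_distrib, sum_SYM2 hs (fun z => (x - z)⁻¹),
      ← Finset.sum_sub_distrib, Finset.mul_sum, Finset.mul_sum]
    refine Finset.sum_congr rfl (fun k _ => ?_)
    rw [sq_SYM2, sub_neg_eq_add]
    unfold sg
    have h1 := n1 k
    have h2 := n3 k
    field_simp
    ring
  -- the single terms
  have s2 : ∑ k, ((2 * r k * Real.cos (a k) : ℝ) : ℂ) * x *
        (P / ((x - wz r a k) * (x - (starRingEnd ℂ) (wz r a k)))) =
      P * (∑ k, ((-Complex.I * x) * ((x - wz r a k)⁻¹ -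
        (x - (starRingEnd ℂ) (wz r a k))⁻¹)) ^ 2 +
        ∑ k, (x * wz r a k / (x - wz r a k) ^ 2 +
          x * (starRingEnd ℂ) (wz r a k) / (x - (starRingEnd ℂ) (wz r a k)) ^ 2)) := by
    rw [← Finset.sum_add_distrib, Finset.mul_sum]
    refine Finset.sum_congr rfl (fun k _ => ?_)
    rw [ck_SYM2]
    have h1 := n1 k
    have h2 := n2 k
    have hI : Complex.I ^ 2 = -1 := Complex.I_sq
    field_simp
    rw [hI]
    ring
  have s3 : ∑ k, (x * wz r a k / (x - wz r a k) ^ 2 +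
        x * (starRingEnd ℂ) (wz r a k) / (x - (starRingEnd ℂ) (wz r a k)) ^ 2) =
      -(4 * x ^ 2 * ∑ k, (sg r a k / (x ^ 2 + sg r a k ^ 2)) ^ 2) := by
    rw [Finset.sum_add_distrib, sum_SYM2 hs (fun z => x * z / (x - z) ^ 2),
      ← Finset.sum_add_distrib, Finset.mul_sum, ← Finset.sum_neg_distrib]
    refine Finset.sum_congr rfl (fun k _ => ?_)
    rw [sq_SYM2, sub_neg_eq_add]
    unfold sg
    have h1 := n1 k
    have h2 := n3 k
    have hI : Complex.I ^ 2 = -1 := Complex.I_sq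
    rw [div_pow, mul_pow, neg_sq, hI]
    field_simp
    ring
  rw [s2, s3, s1]
  ring

/-- SYM2 -/
theorem sym2 {n : ℕ} (r a : Fin n → ℝ)
    (hs : Finset.univ.val.map (fun k => wz r a k) =
      Finset.univ.val.map (fun k => -(starRingEnd ℂ) (wz r a k))) (m : ℕ) :
    ((D2 r a).coeff (2 * m + 2) : ℂ) = 4 * (EE (sg r a)).coeff m := by
  have h := exp_SYM2 r a hs
  have hc : ((D2 r a).coeff (2 * m + 2) : ℂ) =
      (C 4 * X ^ 2 * expand ℂ 2 (EE (sg r a))).coeff (2 * m + 2) := by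
    rw [← h, coeff_map]; rfl
  rw [hc, mul_assoc, coeff_C_mul, coeff_X_pow_mul, mul_comm 2 m, coeff_expand_mul (by norm_num)]

end Pool.Agent.H565R2.EV
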