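import Mathlib
import Pool.Agent.H565R2.EV.Defs

set_option autoImplicit false

open Polynomial

namespace Pool.Agent.H565R2.EV

private theorem fac_SYMP {n : ℕ} (r a : Fin n → ℝ) (k : Fin n) (x : ℂ) :
    x ^ 2 - ((2 * r k * Real.cos (a k) : ℝ) : ℂ) * x + ((r k ^ 2 : ℝ) : ℂ) =
      (x - wz r a k) * (x - (starRingEnd ℂ) (wz r a k)) := by
  have h1 : wz r a k + (starRingEnd ℂ) (wz r a k) = ((2 * r k * Real.cos (a k) : ℝ) : ℂ) := by
    rw [Complex.add_conj]
    congr 1
    unfold wz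
    rw [Complex.re_ofReal_mul, Complex.exp_ofReal_mul_I_re]
    ring
  have h2 : wz r a k * (starRingEnd ℂ) (wz r a k) = ((r k ^ 2 : ℝ) : ℂ) := by
    rw [Complex.mul_conj]
    congr 1
    unfold wz
    rw [Complex.normSq_mul, Complex.normSq_ofReal, Complex.normSq_eq_norm_sq,
      Complex.norm_exp_ofReal_mul_I]
    ring
  rw [← h1, ← h2]
  ring

private theorem dk_SYMP {n : ℕ} (r a : Fin n → ℝ) (k : Fin n) :
    ((2 * r k * Real.sin (a k) : ℝ) : ℂ) =
      -Complex.I * (wz r a k - (starRingEnd ℂ) (wz r a k)) := by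
  have h : wz r a k - (starRingEnd ℂ) (wz r a k) =
      ((2 * r k * Real.sin (a k) : ℝ) : ℂ) * Complex.I := by
    rw [Complex.sub_conj]
    congr 2
    unfold wz
    rw [Complex.im_ofReal_mul, Complex.exp_ofReal_mul_I_im]
    ring
  rw [h]
  have : -Complex.I * (((2 * r k * Real.sin (a k) : ℝ) : ℂ) * Complex.I) =
      -(Complex.I * Complex.I) * ((2 * r k * Real.sin (a k) : ℝ) : ℂ) := by ring
  rw [this, Complex.I_mul_I]
  ring

private theorem ck_SYMP {n : ℕ} (r a : Fin n → ℝ) (k : Fin n) :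
    ((2 * r k * Real.cos (a k) : ℝ) : ℂ) = wz r a k + (starRingEnd ℂ) (wz r a k) := by
  rw [Complex.add_conj]
  congr 1
  unfold wz
  rw [Complex.re_ofReal_mul, Complex.exp_ofReal_mul_I_re]
  ring

private theorem sum_SYMP {n : ℕ} {w : Fin n → ℂ}
    (hs : Finset.univ.val.map (fun k => w k) =
      Finset.univ.val.map (fun k => -(starRingEnd ℂ) (w k))) (g : ℂ → ℂ) :
    ∑ k, g ((starRingEnd ℂ) (w k)) = ∑ k, g (-(w k)) := by
  have h := congrArg (fun M : Multiset ℂ => (M.map (fun z => g (-z))).sum) hs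
  simp only [Multiset.map_map, Function.comp_def, neg_neg] at h
  exact h.symm

private theorem prod_SYMP {n : ℕ} {w : Fin n → ℂ}
    (hs : Finset.univ.val.map (fun k => w k) =
      Finset.univ.val.map (fun k => -(starRingEnd ℂ) (w k))) (g : ℂ → ℂ) :
    ∏ k, g ((starRingEnd ℂ) (w k)) = ∏ k, g (-(w k)) := by
  have h := congrArg (fun M : Multiset ℂ => (M.map (fun z => g (-z))).prod) hs
  simp only [Multiset.map_map, Function.comp_def, neg_neg] at h
  exact h.symm

private theorem sq_SYMP {n : ℕ} (r a : Fin n → ℝ) (k : Fin n) (x : ℂ) :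
    x ^ 2 + sg r a k ^ 2 = (x - wz r a k) * (x + wz r a k) := by
  unfold sg
  rw [mul_pow, neg_sq, Complex.I_sq]
  ring

private theorem P_SYMP {n : ℕ} (r a : Fin n → ℝ)
    (hs : Finset.univ.val.map (fun k => wz r a k) =
      Finset.univ.val.map (fun k => -(starRingEnd ℂ) (wz r a k))) (x : ℂ) :
    ∏ k, ((x - wz r a k) * (x - (starRingEnd ℂ) (wz r a k))) = ∏ k, (x ^ 2 + sg r a k ^ 2) := by
  rw [Finset.prod_mul_distrib, prod_SYMP hs (fun z => x - z), ← Finset.prod_mul_distrib]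
  refine Finset.prod_congr rfl (fun k _ => ?_)
  rw [sq_SYMP]
  ring

/-- SYMP -/
theorem symP {n : ℕ} (r a : Fin n → ℝ)
    (hs : Finset.univ.val.map (fun k => wz r a k) =
      Finset.univ.val.map (fun k => -(starRingEnd ℂ) (wz r a k))) (i : ℕ) :
    (QQ (sg r a)).coeff i = ((rot0 r a).coeff (2 * i) : ℂ) := by
  have h : (rot0 r a).map Complex.ofRealHom = expand ℂ 2 (QQ (sg r a)) := by
    apply Polynomial.funext
    intro x
    rw [expand_eval]
    simp only [rot0, QQ, Polynomial.map_prod, Polynomial.map_sub, Polynomial.map_add,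
      Polynomial.map_pow, Polynomial.map_mul, Polynomial.map_C, Polynomial.map_X, eval_prod,
      eval_add, eval_sub, eval_mul, eval_pow, eval_X, eval_C, Complex.ofRealHom_eq_coe]
    rw [← P_SYMP r a hs x]
    exact Finset.prod_congr rfl (fun k _ => fac_SYMP r a k x)
  have h2 : ((rot0 r a).coeff (2 * i) : ℂ) = ((rot0 r a).map Complex.ofRealHom).coeff (2 * i) := by
    rw [coeff_map]; rfl
  rw [h2, h, mul_comm, coeff_expand_mul (by norm_num)]

end Pool.Agent.H565R2.EV
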