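import Pool.Agent.H565R2.EV.Defs

set_option autoImplicit false

open Polynomial Set MeasureTheory

namespace Pool.Agent.H565R2.EV

/-- INT -/
theorem int_sigma (σ : ℂ) (hσ : 0 < σ.re) :
    IntegrableOn (fun y : ℝ => ((y : ℂ) ^ 2 + σ ^ 2)⁻¹) (Ioi (0 : ℝ)) ∧
      ∫ y in Ioi (0 : ℝ), ((y : ℂ) ^ 2 + σ ^ 2)⁻¹ = (Real.pi : ℂ) / (2 * σ) := by
  sorry

/-- POS -/
theorem pos_int (f : ℝ → ℂ) (g : ℝ → ℝ) (hf : IntegrableOn f (Ioi (0 : ℝ)))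
    (hfg : ∀ y > (0 : ℝ), f y = (g y : ℂ)) (hg : ∀ y > (0 : ℝ), 0 < g y) :
    ∃ ρ : ℝ, 0 < ρ ∧ ∫ y in Ioi (0 : ℝ), f y = (ρ : ℂ) := by
  sorry

/-- ALG1 -/
theorem alg1 {n : ℕ} (σ : Fin n → ℂ) (q : ℕ → ℝ) (hq : ∀ i, (QQ σ).coeff i = (q i : ℂ))
    (s : ℝ) (hne : ∀ k, (s : ℂ) + σ k ^ 2 ≠ 0) (m : ℕ) :
    ((∑ i ∈ Finset.range (n + 1), q i * s ^ i : ℝ) : ℂ) *
        ∑ k, (σ k ^ 2 / ((s : ℂ) + σ k ^ 2)) * (QE σ k).coeff m =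
      ((∑ i ∈ Finset.range (n + 1), ∑ j ∈ Finset.range (n + 1),
        if j ≤ m ∧ m < i then ((i : ℝ) - j) * q i * q j * s ^ (i + j - 1 - m) else 0 : ℝ) : ℂ) := by
  sorry

/-- MM1 -/
theorem mm_identity (i j : ℕ) (s : ℝ) :
    (X - C s) ^ 2 * mm i j s =
      (X - C s) * (C (((j : ℝ) - i) * s ^ i) * X ^ j) +
        C s * (C (s ^ j) * X ^ i - C (s ^ i) * X ^ j) := by
  sorry

/-- MM2 -/
theorem mm_nonneg (i j : ℕ) (s : ℝ) (hs : 0 < s) (m : ℕ) : 0 ≤ (mm i j s).coeff m := by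
  sorry

/-- MM3 -/
theorem mm_pos (n : ℕ) (s : ℝ) (hs : 0 < s) (m : ℕ) (hm : m + 2 ≤ n) :
    0 < (mm n 0 s).coeff m := by
  sorry

/-- ALG2 -/
theorem alg2 {n : ℕ} (σ : Fin n → ℂ) (q w : ℕ → ℝ) (hq : ∀ i, (QQ σ).coeff i = (q i : ℂ))
    (hw : ∀ j, (WW σ).coeff j = (w j : ℂ))
    (s : ℝ) (hne : ∀ k, (s : ℂ) + σ k ^ 2 ≠ 0) (m : ℕ) :
    ((∑ i ∈ Finset.range (n + 1), q i * s ^ i : ℝ) : ℂ) *
        ∑ l, σ l * ∑ k ∈ Finset.univ.erase l,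
          (σ k ^ 2 / ((s : ℂ) + σ k ^ 2)) * (QEE σ l k).coeff m =
      ((∑ i ∈ Finset.range (n + 1), ∑ j ∈ Finset.range n,
        q i * w j * (mm i j s).coeff m : ℝ) : ℂ) := by
  sorry

/-- SYM0: if the polynomial is even, the upper zeros are symmetric under `w -> - conj w`. -/
theorem sym0 {n : ℕ} (r a : Fin n → ℝ) (hr : ∀ k, 0 < r k)
    (ha : ∀ k, 0 < a k ∧ a k < Real.pi)
    (hodd : ∀ j, Odd j → (rot0 r a).coeff j = 0) :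
    Finset.univ.val.map (fun k => wz r a k) =
      Finset.univ.val.map (fun k => -(starRingEnd ℂ) (wz r a k)) := by
  sorry

/-- SYMP -/
theorem symP {n : ℕ} (r a : Fin n → ℝ)
    (hs : Finset.univ.val.map (fun k => wz r a k) =
      Finset.univ.val.map (fun k => -(starRingEnd ℂ) (wz r a k))) (i : ℕ) :
    (QQ (sg r a)).coeff i = ((rot0 r a).coeff (2 * i) : ℂ) := by
  sorry

/-- SYM1 -/
theorem sym1 {n : ℕ} (r a : Fin n → ℝ)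
    (hs : Finset.univ.val.map (fun k => wz r a k) =
      Finset.univ.val.map (fun k => -(starRingEnd ℂ) (wz r a k))) :
    (∀ m, ((D1 r a).coeff (2 * m + 1) : ℂ) = 2 * (WW (sg r a)).coeff m) ∧
      ∀ m, (D1 r a).coeff (2 * m) = 0 := by
  sorry

/-- SYM2 -/
theorem sym2 {n : ℕ} (r a : Fin n → ℝ)
    (hs : Finset.univ.val.map (fun k => wz r a k) =
      Finset.univ.val.map (fun k => -(starRingEnd ℂ) (wz r a k))) (m : ℕ) :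
    ((D2 r a).coeff (2 * m + 2) : ℂ) = 4 * (EE (sg r a)).coeff m := by
  sorry

/-- WPOS -/
theorem W_pos {n : ℕ} (σ : Fin n → ℂ) (hσ : ∀ k, 0 < (σ k).re) (q : ℕ → ℝ)
    (hq : ∀ i, (QQ σ).coeff i = (q i : ℂ)) (hq0 : ∀ i, 0 ≤ q i) (m : ℕ) (hm : m < n) :
    ∃ ρ : ℝ, 0 < ρ ∧ (WW σ).coeff m = (ρ : ℂ) := by
  sorry

/-- EPOS -/
theorem E_pos {n : ℕ} (σ : Fin n → ℂ) (hσ : ∀ k, 0 < (σ k).re) (q : ℕ → ℝ)
    (hq : ∀ i, (QQ σ).coeff i = (q i : ℂ)) (hq0 : ∀ i, 0 ≤ q i) (m : ℕ) (hm : m + 2 ≤ n) :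
    ∃ ρ : ℝ, 0 < ρ ∧ (EE σ).coeff m = (ρ : ℂ) := by
  sorry

/-- CDM -/
theorem CD_mul {F G : ℝ → ℝ[X]} {F' G' : ℝ[X]} {t : ℝ} (hF : CD F F' t) (hG : CD G G' t) :
    CD (fun u => F u * G u) (F' * G t + F t * G') t := by
  sorry

/-- CDP -/
theorem CD_prod {ι : Type} [DecidableEq ι] (S : Finset ι) (F : ι → ℝ → ℝ[X]) (F' : ι → ℝ[X])
    (t : ℝ) (h : ∀ i ∈ S, CD (F i) (F' i) t) :
    CD (fun u => ∏ i ∈ S, F i u) (∑ i ∈ S, F' i * ∏ l ∈ S.erase i, F l t) t := by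
  sorry

/-- DER1 -/
theorem der1 {n : ℕ} (r a : Fin n → ℝ) (t : ℝ) :
    CD (fun u => rot0 r (fun k => u + a k)) (D1 r (fun k => t + a k)) t := by
  sorry

/-- DER2 -/
theorem der2 {n : ℕ} (r a : Fin n → ℝ) (t : ℝ) :
    CD (fun u => D1 r (fun k => u + a k)) (D2 r (fun k => t + a k)) t := by
  sorry

/-- CALC -/
theorem calc_mono (f f' f'' : ℝ → ℝ) (h1 : ∀ t, HasDerivAt f (f' t) t)
    (h2 : ∀ t, HasDerivAt f' (f'' t) t) (h : 0 < f' 0 ∨ (f' 0 = 0 ∧ 0 < f'' 0)) :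
    ∃ ε > (0 : ℝ), MonotoneOn f (Icc 0 ε) := by
  sorry

/-- ENDS -/
theorem ends {n : ℕ} (r b : Fin n → ℝ) :
    (rot0 r b).coeff 0 = ∏ k, r k ^ 2 ∧ (rot0 r b).coeff (2 * n) = 1 ∧
      ∀ j, 2 * n < j → (rot0 r b).coeff j = 0 := by
  sorry

end Pool.Agent.H565R2.EV
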