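import Pool.Agent.H565R2.EV.Defs

set_option autoImplicit false

open Polynomial Set MeasureTheory

namespace Pool.Agent.H565R2.EV

private theorem ne_WPOS (σ : ℂ) (hσ : 0 < σ.re) (y : ℝ) : (y : ℂ) ^ 2 + σ ^ 2 ≠ 0 := by
  intro h
  have h1 : (σ - Complex.I * y) * (σ + Complex.I * y) = 0 := by
    have : (σ - Complex.I * y) * (σ + Complex.I * y) = σ ^ 2 - Complex.I ^ 2 * (y : ℂ) ^ 2 := by
      ring
    rw [this, Complex.I_sq]
    linear_combination h
  rcases mul_eq_zero.mp h1 with h2 | h2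
  · have := congrArg Complex.re h2
    simp at this
    linarith
  · have := congrArg Complex.re h2
    simp at this
    linarith

private theorem QQ_monic_WPOS {n : ℕ} (σ : Fin n → ℂ) : (QQ σ).coeff n = 1 := by
  have hm : (QQ σ).Monic := by
    unfold QQ
    exact monic_prod_of_monic _ _ (fun k _ => monic_X_add_C _)
  have hd : (QQ σ).natDegree = n := by
    unfold QQ
    rw [natDegree_prod_of_monic _ _ (fun k _ => monic_X_add_C _)]
    simp only [natDegree_X_add_C]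
    simp
  have := hm.coeff_natDegree
  rwa [hd] at this

private theorem QQ_zero_WPOS {n : ℕ} (σ : Fin n → ℂ) (hσ : ∀ k, 0 < (σ k).re) :
    (QQ σ).coeff 0 ≠ 0 := by
  rw [coeff_zero_eq_eval_zero]
  unfold QQ
  rw [eval_prod, Finset.prod_ne_zero_iff]
  intro k _
  simp only [eval_add, eval_X, eval_C, zero_add]
  apply pow_ne_zero
  intro h
  have := hσ k
  rw [h] at this
  simp at this

theorem W_pos_of
    (hINT : ∀ (σ : ℂ) (_ : 0 < σ.re),
      IntegrableOn (fun y : ℝ => ((y : ℂ) ^ 2 + σ ^ 2)⁻¹) (Ioi (0 : ℝ)) ∧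
      ∫ y in Ioi (0 : ℝ), ((y : ℂ) ^ 2 + σ ^ 2)⁻¹ = (Real.pi : ℂ) / (2 * σ))
    (hPOS : ∀ (f : ℝ → ℂ) (g : ℝ → ℝ), IntegrableOn f (Ioi (0 : ℝ)) →
      (∀ y > (0 : ℝ), f y = (g y : ℂ)) → (∀ y > (0 : ℝ), 0 < g y) →
      ∃ ρ : ℝ, 0 < ρ ∧ ∫ y in Ioi (0 : ℝ), f y = (ρ : ℂ))
    (hALG : ∀ {n : ℕ} (σ : Fin n → ℂ) (q : ℕ → ℝ), (∀ i, (QQ σ).coeff i = (q i : ℂ)) →
      ∀ (s : ℝ), (∀ k, (s : ℂ) + σ k ^ 2 ≠ 0) → ∀ (m : ℕ),
      ((∑ i ∈ Finset.range (n + 1), q i * s ^ i : ℝ) : ℂ) *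
        ∑ k, (σ k ^ 2 / ((s : ℂ) + σ k ^ 2)) * (QE σ k).coeff m =
      ((∑ i ∈ Finset.range (n + 1), ∑ j ∈ Finset.range (n + 1),
        if j ≤ m ∧ m < i then ((i : ℝ) - j) * q i * q j * s ^ (i + j - 1 - m) else 0 : ℝ) : ℂ))
    {n : ℕ} (σ : Fin n → ℂ) (hσ : ∀ k, 0 < (σ k).re) (q : ℕ → ℝ)
    (hq : ∀ i, (QQ σ).coeff i = (q i : ℂ)) (hq0 : ∀ i, 0 ≤ q i) (m : ℕ) (hm : m < n) :
    ∃ ρ : ℝ, 0 < ρ ∧ (WW σ).coeff m = (ρ : ℂ) := by
  have hqn : q n = 1 := by
    have := hq n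
    rw [QQ_monic_WPOS] at this
    exact_mod_cast this.symm
  have hq00 : 0 < q 0 := by
    have h1 := QQ_zero_WPOS σ hσ
    rw [hq 0] at h1
    have h2 : q 0 ≠ 0 := by exact_mod_cast h1
    exact lt_of_le_of_ne (hq0 0) (Ne.symm h2)
  -- positivity
  have hQpos : ∀ s : ℝ, 0 < s → 0 < ∑ i ∈ Finset.range (n + 1), q i * s ^ i := by
    intro s hs
    apply Finset.sum_pos'
    · intro i _
      exact mul_nonneg (hq0 i) (pow_nonneg hs.le _)
    · refine ⟨n, by simp, ?_⟩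
      rw [hqn]
      positivity
  have hNpos : ∀ s : ℝ, 0 < s → 0 < ∑ i ∈ Finset.range (n + 1), ∑ j ∈ Finset.range (n + 1),
      (if j ≤ m ∧ m < i then ((i : ℝ) - j) * q i * q j * s ^ (i + j - 1 - m) else 0) := by
    intro s hs
    have hterm : ∀ i j : ℕ, 0 ≤ (if j ≤ m ∧ m < i then
        ((i : ℝ) - j) * q i * q j * s ^ (i + j - 1 - m) else 0) := by
      intro i j
      split_ifs with h
      · have hij : (j : ℝ) ≤ i := by exact_mod_cast (le_of_lt (lt_of_le_of_lt h.1 h.2))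
        have := hq0 i
        have := hq0 j
        have h1 : (0 : ℝ) ≤ (i : ℝ) - j := by linarith
        positivity
      · exact le_refl _
    apply Finset.sum_pos'
    · intro i _
      exact Finset.sum_nonneg (fun j _ => hterm i j)
    · refine ⟨n, by simp, ?_⟩
      apply Finset.sum_pos'
      · intro j _
        exact hterm n j
      · refine ⟨0, by simp, ?_⟩
        rw [if_pos ⟨Nat.zero_le _, hm⟩, hqn]
        have hn : (0 : ℝ) < n := by exact_mod_cast (lt_of_le_of_lt (Nat.zero_le _) hm)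
        simp only [Nat.cast_zero, sub_zero, mul_one]
        positivity
  set c : Fin n → ℂ := fun k => (QE σ k).coeff m with hc
  set f : ℝ → ℂ := fun y => ∑ k, σ k ^ 2 * c k * ((y : ℂ) ^ 2 + σ k ^ 2)⁻¹ with hf
  set N : ℝ → ℝ := fun s => ∑ i ∈ Finset.range (n + 1), ∑ j ∈ Finset.range (n + 1),
      (if j ≤ m ∧ m < i then ((i : ℝ) - j) * q i * q j * s ^ (i + j - 1 - m) else 0) with hN
  set Q : ℝ → ℝ := fun s => ∑ i ∈ Finset.range (n + 1), q i * s ^ i with hQ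
  have hint : IntegrableOn f (Ioi (0 : ℝ)) := by
    rw [hf]
    apply MeasureTheory.integrable_finsetSum
    intro k _
    exact (hINT (σ k) (hσ k)).1.const_mul _
  have hfi : ∫ y in Ioi (0 : ℝ), f y = (Real.pi : ℂ) / 2 * (WW σ).coeff m := by
    rw [hf]
    rw [MeasureTheory.integral_finsetSum _
      (fun k _ => (hINT (σ k) (hσ k)).1.const_mul _)]
    simp_rw [MeasureTheory.integral_const_mul]
    unfold WW
    rw [finsetSum_coeff, Finset.mul_sum]
    apply Finset.sum_congr rfl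
    intro k _
    rw [(hINT (σ k) (hσ k)).2, coeff_C_mul]
    have hne : σ k ≠ 0 := by
      intro h
      have := hσ k
      rw [h] at this
      simp at this
    simp only [hc]
    field_simp
  have hfg : ∀ y > (0 : ℝ), f y = ((N (y ^ 2) / Q (y ^ 2) : ℝ) : ℂ) := by
    intro y hy
    have hs : 0 < y ^ 2 := by positivity
    have hQp := hQpos (y ^ 2) hs
    have hne : ∀ k, ((y ^ 2 : ℝ) : ℂ) + σ k ^ 2 ≠ 0 := by
      intro k
      push_cast
      exact ne_WPOS (σ k) (hσ k) y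
    have key := hALG σ q hq (y ^ 2) hne m
    have hQc : ((Q (y ^ 2) : ℝ) : ℂ) ≠ 0 := by
      have : Q (y ^ 2) ≠ 0 := ne_of_gt hQp
      exact_mod_cast this
    have key2 : ((Q (y ^ 2) : ℝ) : ℂ) * f y = ((N (y ^ 2) : ℝ) : ℂ) := by
      rw [← key]
      congr 1
      rw [hf]
      apply Finset.sum_congr rfl
      intro k _
      simp only [hc]
      push_cast
      rw [div_eq_mul_inv]
      ring
    rw [Complex.ofReal_div, eq_div_iff hQc, ← key2, mul_comm]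
  obtain ⟨ρ, hρ, hρe⟩ := hPOS f (fun y => N (y ^ 2) / Q (y ^ 2)) hint hfg
    (fun y hy => div_pos (hNpos _ (by positivity)) (hQpos _ (by positivity)))
  refine ⟨2 / Real.pi * ρ, by positivity, ?_⟩
  rw [hfi] at hρe
  have hpi : (Real.pi : ℂ) ≠ 0 := by exact_mod_cast Real.pi_ne_zero
  push_cast
  rw [← hρe]
  field_simp

end Pool.Agent.H565R2.EV
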